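import Pool.Agent.Q83.Mean.Gen

namespace Pool.Agent.Q83.Mean

open SimpleGraph

/-- the adjacency of the graph, smaller number first: the cycle `0, …, N - 1`, leaves
`N, …, N + r - 1` at `0`, leaves `N + r, …, N + 2 r - 1` at `c`, a triangle
`m, N + 2 r, N + 2 r + 1` -/
def R (N m c r a b : ℕ) : Prop := a < b ∧
  ((b = a + 1 ∧ b < N) ∨ (a = 0 ∧ b + 1 = N) ∨ (a = 0 ∧ N ≤ b ∧ b < N + r) ∨
   (a = c ∧ N + r ≤ b ∧ b < N + 2 * r) ∨ (a = m ∧ N + 2 * r ≤ b ∧ b < N + 2 * r + 2) ∨
   (a = N + 2 * r ∧ b = N + 2 * r + 1))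

/-- the graph -/
def G (N m c r : ℕ) : SimpleGraph (Fin (N + 2 * r + 2)) where
  Adj a b := R N m c r a b ∨ R N m c r b a
  symm := ⟨fun _ _ h => h.symm⟩
  loopless := ⟨fun a h => by rcases h with h | h <;> exact absurd h.1 (lt_irrefl _)⟩

/-- the vertices of the standard subtree with gap `(s, t)`, leaves `L` and state `g` of the
triangle -/
def InV (N r s t g : ℕ) (L : Finset ℕ) (a : ℕ) : Prop :=
  (a < N ∧ (a ≤ s ∨ t ≤ a)) ∨ a ∈ L ∨ (a = N + 2 * r ∧ (g = 1 ∨ 3 ≤ g)) ∨
    (a = N + 2 * r + 1 ∧ 2 ≤ g)

/-- the edges of the standard subtree -/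
def TR (N m c r s t g : ℕ) (L : Finset ℕ) (a b : ℕ) : Prop := a < b ∧
  ((b = a + 1 ∧ b < N ∧ (a < s ∨ t ≤ a)) ∨ (a = 0 ∧ b + 1 = N ∧ t < N) ∨
   (a = 0 ∧ b ∈ L ∧ b < N + r) ∨ (a = c ∧ b ∈ L ∧ N + r ≤ b) ∨
   (a = m ∧ b = N + 2 * r ∧ (g = 1 ∨ g = 3 ∨ g = 4)) ∨
   (a = m ∧ b = N + 2 * r + 1 ∧ (g = 2 ∨ g = 3 ∨ g = 5)) ∨
   (a = N + 2 * r ∧ b = N + 2 * r + 1 ∧ (g = 4 ∨ g = 5)))

/-- the admissible data -/
structure Ok (N m c r s t g : ℕ) (L : Finset ℕ) : Prop where
  st : s < t
  tN : t ≤ N
  g6 : g < 6
  hL : ∀ a ∈ L, N ≤ a ∧ a < N + 2 * r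
  hc : c ≤ s ∨ t ≤ c
  hm : g = 0 ∨ m ≤ s ∨ t ≤ m

/-- facts about a connected pair of vertices and edges -/
structure CF (N m c r : ℕ) (VT : ℕ → Prop) (ET : ℕ → ℕ → Prop) : Prop where
  symm : ∀ a b, ET a b → ET b a
  sub : ∀ a b, ET a b → R N m c r a b ∨ R N m c r b a
  vert : ∀ a b, ET a b → VT a
  lt : ∀ a, VT a → a < N + 2 * r + 2
  root : VT 0
  hub : VT c
  closed : ∀ P : ℕ → Prop, P 0 → (∀ a b, P a → ET a b → P b) → ∀ a, VT a → P a

/-- facts about a tree -/
structure TF (N m c r : ℕ) (VT : ℕ → Prop) (ET : ℕ → ℕ → Prop) : Prop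
    extends CF N m c r VT ET where
  bridge : ∀ a b, ET a b → ∃ P : ℕ → Prop, P a ∧ ¬ P b ∧
    ∀ x y, P x → ET x y → ¬ (x = a ∧ y = b) → ¬ (x = b ∧ y = a) → P y

variable {N m c r : ℕ} {VT : ℕ → Prop} {ET : ℕ → ℕ → Prop}

theorem CF.nbr (h : CF N m c r VT ET) {a : ℕ} (ha : VT a) (h0 : a ≠ 0) : ∃ b, ET b a := by
  by_contra hne
  push Not at hne
  refine h.closed (fun z => z ≠ a) (Ne.symm h0) ?_ a ha rfl
  rintro x y _ hxy rfl
  exact hne x hxy

/-- the classification of the subtrees containing both hubs -/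
theorem TF.cls (h : TF N m c r VT ET) (hm : 0 < m) (hmc : m < c) (hcN : c < N) :
    ∃ s t g L, Ok N m c r s t g L ∧ (∀ a, VT a ↔ InV N r s t g L a) ∧
      ∀ a b, ET a b ↔ (TR N m c r s t g L a b ∨ TR N m c r s t g L b a) := by
  classical
  -- cycle edges
  let E : ℕ → Prop := fun k => if k + 1 < N then ET k (k + 1) else ET 0 k
  have hE1 : ∀ k, k + 1 < N → (E k ↔ ET k (k + 1)) := fun k hk => by simp only [E, if_pos hk]
  have hE2 : ∀ k, k + 1 = N → (E k ↔ ET 0 k) := fun k hk => by
    simp only [E, if_neg (by omega : ¬ (k + 1 < N))]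
  have hnot : ∃ k, k < N ∧ ¬ E k := by
    by_contra hall
    push Not at hall
    have h1 := (hE2 (N - 1) (by omega)).1 (hall (N - 1) (by omega))
    obtain ⟨P, hPa, hPb, hP⟩ := h.bridge _ _ h1
    have : ∀ k, k < N → P k := by
      intro k
      induction k with
      | zero => exact fun _ => hPa
      | succ k ih =>
        intro hk
        refine hP k (k + 1) (ih (by omega)) ((hE1 k hk).1 (hall k (by omega))) ?_ ?_
        · omega
        · omega
    exact hPb (this _ (by omega))
  obtain ⟨s, hs1, hs2⟩ : ∃ s, (s < N ∧ ¬ E s) ∧ ∀ k, k < s → E k := by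
    refine ⟨Nat.find hnot, Nat.find_spec hnot, fun k hk => ?_⟩
    by_contra hk'
    exact Nat.find_min hnot hk ⟨by have := (Nat.find_spec hnot).1; omega, hk'⟩
  obtain ⟨j, hj1, hj2⟩ : ∃ j, (j < N ∧ ¬ E j) ∧ ∀ k, j < k → k < N → E k := by
    have hne : ((Finset.range N).filter (fun k => ¬ E k)).Nonempty := ⟨s, by simpa using hs1⟩
    obtain ⟨j, hj, hmax⟩ := Finset.exists_max_image _ id hne
    refine ⟨j, by simpa using hj, fun k h1 h2 => ?_⟩
    by_contra hk
    have := hmax k (by simpa using ⟨h2, hk⟩)
    simp only [id] at this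
    omega
  have hsj : s ≤ j := by
    by_contra hlt
    exact hj1.2 (hs2 j (by omega))
  -- the vertices
  have hvs : ∀ a, a ≤ s → VT a := by
    intro a ha
    rcases Nat.eq_zero_or_pos a with h0 | h0
    · subst h0; exact h.root
    · have := (hE1 (a - 1) (by omega)).1 (hs2 (a - 1) (by omega))
      rw [Nat.sub_add_cancel h0] at this
      exact h.vert _ _ (h.symm _ _ this)
  have hvt : ∀ a, j + 1 ≤ a → a < N → VT a := by
    intro a ha haN
    have hEa := hj2 a (by omega) haN
    by_cases h1 : a + 1 < N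
    · exact h.vert _ _ ((hE1 a h1).1 hEa)
    · exact h.vert _ _ (h.symm _ _ ((hE2 a (by omega)).1 hEa))
  have hcl := h.closed (fun a => (a < N → a ≤ s ∨ j + 1 ≤ a) ∧
    (N + r ≤ a → a < N + 2 * r → c ≤ s ∨ j + 1 ≤ c) ∧
    (N + 2 * r ≤ a → m ≤ s ∨ j + 1 ≤ m)) (by refine ⟨fun _ => Or.inl (by omega), ?_, ?_⟩ <;> omega)
    (by
      intro a b ⟨h1, h2, h3⟩ hab
      have hR := h.sub a b hab
      rcases hR with ⟨hlt, hR | hR | hR | hR | hR | hR⟩ | ⟨hlt, hR | hR | hR | hR | hR | hR⟩
      · -- b = a + 1
        refine ⟨fun _ => ?_, by omega, by omega⟩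
        rcases h1 (by omega) with h1 | h1
        · rcases Nat.lt_or_ge a s with h4 | h4
          · left; omega
          · exfalso
            have : a = s := by omega
            subst this
            apply hs1.2
            rw [hE1 _ (by omega)]
            rw [← hR.1]; exact hab
        · right; omega
      · -- a = 0, b = N - 1
        refine ⟨fun _ => ?_, by omega, by omega⟩
        right
        have : E b := by rw [hE2 _ hR.2, ← hR.1]; exact hab
        by_contra hlt'
        have : b = j := by omega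
        subst this
        exact hj1.2 ‹_›
      · exact ⟨by omega, by omega, by omega⟩
      · refine ⟨by omega, fun _ _ => ?_, by omega⟩
        have := h1 (by omega)
        omega
      · refine ⟨by omega, by omega, fun _ => ?_⟩
        have := h1 (by omega)
        omega
      · refine ⟨by omega, by omega, fun _ => ?_⟩
        have := h3 (by omega)
        omega
      · -- a = b + 1
        refine ⟨fun _ => ?_, by omega, by omega⟩
        rcases h1 (by omega) with h1 | h1
        · left; omega
        · rcases Nat.lt_or_ge b (j + 1) with h4 | h4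
          · exfalso
            have : b = j := by omega
            subst this
            apply hj1.2
            rw [hE1 _ (by omega)]
            rw [← hR.1]; exact h.symm _ _ hab
          · right; omega
      · refine ⟨fun _ => ?_, by omega, by omega⟩
        left; omega
      · refine ⟨fun _ => ?_, by omega, by omega⟩
        left; omega
      · refine ⟨fun _ => ?_, by omega, by omega⟩
        have := h2 (by omega) (by omega)
        omega
      · refine ⟨fun _ => ?_, by omega, by omega⟩
        have := h3 (by omega)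
        omega
      · refine ⟨by omega, by omega, fun _ => ?_⟩
        have := h3 (by omega)
        omega)
  -- leaves
  have hleaf0 : ∀ a, N ≤ a → a < N + r → VT a → ET 0 a := by
    intro a h1 h2 h3
    obtain ⟨b, hb⟩ := h.nbr h3 (by omega)
    have : b = 0 := by
      have := h.sub _ _ hb
      unfold R at this
      omega
    rwa [this] at hb
  have hleafc : ∀ a, N + r ≤ a → a < N + 2 * r → VT a → ET c a := by
    intro a h1 h2 h3
    obtain ⟨b, hb⟩ := h.nbr h3 (by omega)
    have : b = c := by
      have := h.sub _ _ hb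
      unfold R at this
      omega
    rwa [this] at hb
  -- the triangle
  set x := N + 2 * r with hx
  have hnbx : VT x → ET m x ∨ ET x (x + 1) := by
    intro h3
    obtain ⟨b, hb⟩ := h.nbr h3 (by omega)
    have : b = m ∨ b = x + 1 := by
      have := h.sub _ _ hb
      unfold R at this
      omega
    rcases this with h4 | h4
    · left; rwa [h4] at hb
    · right; rw [h4] at hb; exact h.symm _ _ hb
  have hnby : VT (x + 1) → ET m (x + 1) ∨ ET x (x + 1) := by
    intro h3
    obtain ⟨b, hb⟩ := h.nbr h3 (by omega)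
    have : b = m ∨ b = x := by
      have := h.sub _ _ hb
      unfold R at this
      omega
    rcases this with h4 | h4
    · left; rwa [h4] at hb
    · right; rwa [h4] at hb
  have htri : ¬ (ET m x ∧ ET m (x + 1) ∧ ET x (x + 1)) := by
    rintro ⟨h1, h2, h3⟩
    obtain ⟨P, hPa, hPb, hP⟩ := h.bridge _ _ h3
    have h4 := hP x m hPa (h.symm _ _ h1) (by omega) (by omega)
    exact hPb (hP m (x + 1) h4 h2 (by omega) (by omega))
  have htri2 : VT x → ET m x ∨ ET m (x + 1) := by
    intro h3
    by_contra hno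
    push Not at hno
    have := h.closed (fun z => z ≠ x ∧ z ≠ x + 1) (by omega) (by
      rintro a b ⟨h1, h2⟩ hab
      constructor
      · rintro rfl
        have := h.sub _ _ hab
        have h5 : a = m := by
          unfold R at this
          omega
        rw [h5] at hab
        exact hno.1 hab
      · rintro rfl
        have := h.sub _ _ hab
        have h5 : a = m := by
          unfold R at this
          omega
        rw [h5] at hab
        exact hno.2 hab) x h3
    exact this.1 rfl
  have hmx : ET m x → VT x := fun h1 => h.vert _ _ (h.symm _ _ h1)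
  have hmy : ET m (x + 1) → VT (x + 1) := fun h1 => h.vert _ _ (h.symm _ _ h1)
  have hxy1 : ET x (x + 1) → VT x := fun h1 => h.vert _ _ h1
  have hxy2 : ET x (x + 1) → VT (x + 1) := fun h1 => h.vert _ _ (h.symm _ _ h1)
  obtain ⟨g, hg6, hgx, hgy, hgmx, hgmy, hgxy⟩ : ∃ g, g < 6 ∧ (VT x ↔ (g = 1 ∨ 3 ≤ g)) ∧
      (VT (x + 1) ↔ 2 ≤ g) ∧ (ET m x ↔ (g = 1 ∨ g = 3 ∨ g = 4)) ∧
      (ET m (x + 1) ↔ (g = 2 ∨ g = 3 ∨ g = 5)) ∧ (ET x (x + 1) ↔ (g = 4 ∨ g = 5)) := by
    by_cases b1 : VT x <;> by_cases b2 : VT (x + 1)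
    · by_cases b3 : ET x (x + 1)
      · by_cases b4 : ET m x
        · have b5 : ¬ ET m (x + 1) := fun h5 => htri ⟨b4, h5, b3⟩
          refine ⟨4, ?_⟩
          simp [b1, b2, b3, b4, b5]
        · have b5 : ET m (x + 1) := (htri2 b1).resolve_left b4
          refine ⟨5, ?_⟩
          simp [b1, b2, b3, b4, b5]
      · have b4 := (hnbx b1).resolve_right b3
        have b5 := (hnby b2).resolve_right b3
        refine ⟨3, ?_⟩
        simp [b1, b2, b3, b4, b5]
    · have b3 : ¬ ET x (x + 1) := fun h => b2 (hxy2 h)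
      have b5 : ¬ ET m (x + 1) := fun h => b2 (hmy h)
      have b4 := (hnbx b1).resolve_right b3
      refine ⟨1, ?_⟩
      simp [b1, b2, b3, b4, b5]
    · have b3 : ¬ ET x (x + 1) := fun h => b1 (hxy1 h)
      have b4 : ¬ ET m x := fun h => b1 (hmx h)
      have b5 := (hnby b2).resolve_right b3
      refine ⟨2, ?_⟩
      simp [b1, b2, b3, b4, b5]
    · have b3 : ¬ ET x (x + 1) := fun h => b1 (hxy1 h)
      have b4 : ¬ ET m x := fun h => b1 (hmx h)
      have b5 : ¬ ET m (x + 1) := fun h => b2 (hmy h)
      refine ⟨0, ?_⟩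
      simp [b1, b2, b3, b4, b5]
  refine ⟨s, j + 1, g, (Finset.Ico N (N + 2 * r)).filter VT, ⟨by omega, by omega, hg6, ?_, ?_, ?_⟩,
    ?_, ?_⟩
  · intro a ha
    simp only [Finset.mem_filter, Finset.mem_Ico] at ha
    exact ha.1
  · exact (hcl c h.hub).1 hcN
  · by_cases h0 : g = 0
    · exact Or.inl h0
    · right
      by_cases h1 : VT x
      · exact (hcl x h1).2.2 (by omega)
      · have : VT (x + 1) := hgy.2 (by
          by_contra h2
          exact h1 (hgx.2 (by omega)))
        exact (hcl _ this).2.2 (by omega)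
  · intro a
    unfold InV
    simp only [Finset.mem_filter, Finset.mem_Ico]
    rw [← hx]
    constructor
    · intro ha
      have h1 := (hcl a ha).1
      have h2 := h.lt a ha
      by_cases h3 : a < N
      · exact Or.inl ⟨h3, h1 h3⟩
      · by_cases h4 : a < x
        · right; left; exact ⟨⟨by omega, h4⟩, ha⟩
        · have : a = x ∨ a = x + 1 := by omega
          rcases this with h5 | h5
          · right; right; left
            exact ⟨h5, hgx.1 (h5 ▸ ha)⟩
          · right; right; right
            exact ⟨h5, hgy.1 (h5 ▸ ha)⟩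
    · rintro (⟨h1, h2⟩ | ⟨_, h1⟩ | ⟨h1, h2⟩ | ⟨h1, h2⟩)
      · rcases h2 with h2 | h2
        · exact hvs a h2
        · exact hvt a h2 h1
      · exact h1
      · rw [h1]; exact hgx.2 h2
      · rw [h1]; exact hgy.2 h2
  · have key : ∀ a b, a < b → (ET a b ↔ TR N m c r s (j + 1) g ((Finset.Ico N (N + 2 * r)).filter VT) a b) := by
      intro a b hab
      unfold TR
      simp only [Finset.mem_filter, Finset.mem_Ico]
      rw [← hx]
      constructor
      · intro he
        refine ⟨hab, ?_⟩
        have hva := h.vert _ _ he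
        have hvb := h.vert _ _ (h.symm _ _ he)
        rcases h.sub _ _ he with ⟨hlt, hR | hR | hR | hR | hR | hR⟩ | ⟨hlt, _⟩
        · left
          refine ⟨hR.1, hR.2, ?_⟩
          have h1 : E a := by rw [hE1 _ (by omega), ← hR.1]; exact he
          have h2 := (hcl a hva).1 (by omega)
          rcases h2 with h2 | h2
          · left
            rcases Nat.lt_or_ge a s with h3 | h3
            · exact h3
            · have : a = s := by omega
              rw [this] at h1
              exact absurd h1 hs1.2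
          · right; exact h2
        · right; left
          refine ⟨hR.1, hR.2, ?_⟩
          have h1 : E b := by rw [hE2 _ hR.2, ← hR.1]; exact he
          by_contra h2
          have : b = j := by omega
          rw [this] at h1
          exact hj1.2 h1
        · right; right; left
          exact ⟨hR.1, ⟨⟨hR.2.1, by omega⟩, hvb⟩, hR.2.2⟩
        · right; right; right; left
          exact ⟨hR.1, ⟨⟨by omega, by omega⟩, hvb⟩, hR.2.1⟩
        · have : b = x ∨ b = x + 1 := by omega
          rcases this with h5 | h5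
          · right; right; right; right; left
            refine ⟨hR.1, h5, hgmx.1 ?_⟩
            rw [← h5, ← hR.1]; exact he
          · right; right; right; right; right; left
            refine ⟨hR.1, h5, hgmy.1 ?_⟩
            rw [← h5, ← hR.1]; exact he
        · right; right; right; right; right; right
          refine ⟨hR.1, hR.2, hgxy.1 ?_⟩
          have h6 := hR.2
          rw [← hx] at h6
          rw [← h6]
          have h7 := hR.1
          rw [← hx] at h7
          rw [← h7]
          exact he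
        · omega
      · rintro ⟨_, hh⟩
        rcases hh with ⟨h1, h2, h3⟩ | ⟨h1, h2, h3⟩ | ⟨h1, ⟨h2, h3⟩, h4⟩ | ⟨h1, ⟨h2, h3⟩, h4⟩ |
          ⟨h1, h2, h3⟩ | ⟨h1, h2, h3⟩ | ⟨h1, h2, h3⟩
        · rw [h1, ← hE1 _ (by omega)]
          rcases h3 with h3 | h3
          · exact hs2 a h3
          · exact hj2 a (by omega) (by omega)
        · rw [h1, ← hE2 _ h2]
          exact hj2 b (by omega) (by omega)
        · rw [h1]; exact hleaf0 b h2.1 h4 h3
        · rw [h1]; exact hleafc b h4 (by omega) h3
        · rw [h1, h2]; exact hgmx.2 h3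
        · rw [h1, h2]; exact hgmy.2 h3
        · rw [h1, h2]; exact hgxy.2 h3
    intro a b
    rcases Nat.lt_trichotomy a b with hab | hab | hab
    · rw [key a b hab]
      constructor
      · exact Or.inl
      · rintro (h1 | h1)
        · exact h1
        · exact absurd h1.1 (by omega)
    · subst hab
      constructor
      · intro h1
        have := h.sub _ _ h1
        unfold R at this
        omega
      · rintro (h1 | h1) <;> exact absurd h1.1 (lt_irrefl _)
    · have : ET a b ↔ ET b a := ⟨h.symm _ _, h.symm _ _⟩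
      rw [this, key b a hab]
      constructor
      · exact Or.inr
      · rintro (h1 | h1)
        · exact absurd h1.1 (by omega)
        · exact h1

end Pool.Agent.Q83.Mean
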