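import Pool.Agent.Q83.Mean.Enum

namespace Pool.Agent.Q83.Mean

open SimpleGraph

variable {N m c r : ℕ}

/-- the standard vertex set -/
def SV (N r s t g : ℕ) (L : Finset ℕ) : Set (Fin (N + 2 * r + 2)) := {a | InV N r s t g L a}

/-- canonical data for sets -/
def Can (N s t g : ℕ) : Prop := g < 4 ∧ (s + 2 ≤ t ∨ (s + 1 = N ∧ t = N))

theorem exists_SV (hm : 0 < m) (hmc : m < c) (hcN : c < N) (S : Set (Fin (N + 2 * r + 2)))
    (hS : ((G N m c r).induce S).Connected) (h0 : (⟨0, by omega⟩ : Fin (N + 2 * r + 2)) ∈ S)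
    (hc : (⟨c, by omega⟩ : Fin (N + 2 * r + 2)) ∈ S) :
    ∃ s t g L, Ok N m c r s t g L ∧ Can N s t g ∧ S = SV N r s t g L := by
  have hCF : CF N m c r (fun a => ∃ h : a < N + 2 * r + 2, (⟨a, h⟩ : Fin (N + 2 * r + 2)) ∈ S)
      (fun a b => (R N m c r a b ∨ R N m c r b a) ∧
        (∃ h : a < N + 2 * r + 2, (⟨a, h⟩ : Fin (N + 2 * r + 2)) ∈ S) ∧
        (∃ h : b < N + 2 * r + 2, (⟨b, h⟩ : Fin (N + 2 * r + 2)) ∈ S)) := by
    refine ⟨fun a b h => ⟨h.1.symm, h.2.2, h.2.1⟩, fun a b h => h.1, fun a b h => h.2.1,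
      fun a h => h.1, ⟨_, h0⟩, ⟨_, hc⟩, ?_⟩
    intro P hP0 hP a ⟨ha, hav⟩
    exact closed_of_connected hS (u := ⟨⟨0, by omega⟩, h0⟩) (fun z => P z.1.1) hP0
      (fun x y hx hxy => hP _ _ hx ⟨hxy, ⟨x.1.2, x.2⟩, ⟨y.1.2, y.2⟩⟩) ⟨⟨a, ha⟩, hav⟩
  obtain ⟨s, t, g, L, hO, hg, hcan, h1⟩ := hCF.cls hm hmc hcN
  refine ⟨s, t, g, L, hO, ⟨hg, hcan⟩, ?_⟩
  ext a
  exact ⟨fun h => (h1 _).1 ⟨a.2, h⟩, fun h => ((h1 _).2 h).2⟩

theorem InV.lt {s t g : ℕ} {L : Finset ℕ} (hL : ∀ a ∈ L, N ≤ a ∧ a < N + 2 * r) {a : ℕ}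
    (h : InV N r s t g L a) : a < N + 2 * r + 2 := by
  rcases h with h | h | h | h
  · omega
  · have := hL a h; omega
  · omega
  · omega

theorem SV_inj (hm : 0 < m) (hmc : m < c) (hcN : c < N) {s t g s' t' g' : ℕ} {L L' : Finset ℕ}
    (hO : Ok N m c r s t g L) (hO' : Ok N m c r s' t' g' L') (hC : Can N s t g)
    (hC' : Can N s' t' g') (h : SV N r s t g L = SV N r s' t' g' L') :
    s = s' ∧ t = t' ∧ g = g' ∧ L = L' := by
  have hV : ∀ a, InV N r s t g L a ↔ InV N r s' t' g' L' a := by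
    intro a
    constructor
    · intro ha
      have h1 : (⟨a, ha.lt hO.hL⟩ : Fin (N + 2 * r + 2)) ∈ SV N r s t g L := ha
      rw [h] at h1
      exact h1
    · intro ha
      have h1 : (⟨a, ha.lt hO'.hL⟩ : Fin (N + 2 * r + 2)) ∈ SV N r s' t' g' L' := ha
      rw [← h] at h1
      exact h1
  obtain ⟨hst, htN, hg6, hL, hc, hm1⟩ := hO
  obtain ⟨hst', htN', hg6', hL', hc', hm1'⟩ := hO'
  obtain ⟨hC1, hC2⟩ := hC
  obtain ⟨hC1', hC2'⟩ := hC'
  have hLL : L = L' := by
    ext a
    have := hV a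
    unfold InV at this
    constructor
    · intro ha
      have h1 := hL a ha
      rcases this.1 (Or.inr (Or.inl ha)) with h2 | h2 | h2 | h2
      · omega
      · exact h2
      · omega
      · omega
    · intro ha
      have h1 := hL' a ha
      rcases this.2 (Or.inr (Or.inl ha)) with h2 | h2 | h2 | h2
      · omega
      · exact h2
      · omega
      · omega
  subst hLL
  have key : ∀ (s t g : ℕ) (L : Finset ℕ), (∀ a ∈ L, N ≤ a ∧ a < N + 2 * r) → ∀ k, k < N →
      (InV N r s t g L k ↔ (k ≤ s ∨ t ≤ k)) := by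
    intro s t g L hL k hk
    constructor
    · rintro (h2 | h2 | h2 | h2)
      · exact h2.2
      · have := hL _ h2; omega
      · omega
      · omega
    · intro h1
      exact Or.inl ⟨hk, h1⟩
  have hk : ∀ k, k < N → ((k ≤ s ∨ t ≤ k) ↔ (k ≤ s' ∨ t' ≤ k)) := by
    intro k hk
    rw [← key s t g L hL k hk, ← key s' t' g' L hL' k hk]
    exact hV _
  have n1 : N + 2 * r ∉ L := fun h => by have := hL _ h; omega
  have n2 : N + 2 * r + 1 ∉ L := fun h => by have := hL _ h; omega
  have v1 := hV (N + 2 * r)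
  have v2 := hV (N + 2 * r + 1)
  unfold InV at v1 v2
  simp only [n1, n2, false_or, true_and] at v1 v2
  have w1 : (g = 1 ∨ 3 ≤ g) ↔ (g' = 1 ∨ 3 ≤ g') := by omega
  have w2 : 2 ≤ g ↔ 2 ≤ g' := by omega
  have h1 := hk (s + 1)
  have h2 := hk (s' + 1)
  have h3 := hk (t - 1)
  have h4 := hk (t' - 1)
  clear hk key hV v1 v2
  refine ⟨by omega, by omega, by omega, rfl⟩

/-- the size of a standard vertex set -/
theorem SV_card {s t g : ℕ} {L : Finset ℕ} (hst : s < t) (htN : t ≤ N)
    (hL : ∀ a ∈ L, N ≤ a ∧ a < N + 2 * r) :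
    (SV N r s t g L).ncard = s + 1 + (N - t) + ((if g = 1 ∨ 3 ≤ g then 1 else 0) +
      (if 2 ≤ g then 1 else 0)) + L.card := by
  classical
  have h1 : (Fin.val '' (SV N r s t g L)) =
      ((Finset.range (s + 1) ∪ Finset.Ico t N ∪ L ∪
        (if g = 1 ∨ 3 ≤ g then {N + 2 * r} else ∅) ∪
        (if 2 ≤ g then {N + 2 * r + 1} else ∅) : Finset ℕ) : Set ℕ) := by
    ext a
    simp only [Set.mem_image, SV, Set.mem_setOf_eq, Finset.coe_union, Set.mem_union,
      Finset.mem_coe, Finset.mem_range, Finset.mem_Ico]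
    constructor
    · rintro ⟨b, hb, rfl⟩
      rcases hb with hb | hb | hb | hb
      · left; left; left; omega
      · left; left; right; exact hb
      · left; right
        rw [if_pos hb.2, hb.1]; simp
      · right
        rw [if_pos hb.2, hb.1]; simp
    · rintro ((((h | h) | h) | h) | h)
      · exact ⟨⟨a, by omega⟩, Or.inl (by simp only; omega), rfl⟩
      · exact ⟨⟨a, by omega⟩, Or.inl (by simp only; omega), rfl⟩
      · exact ⟨⟨a, by have := hL a h; omega⟩, Or.inr (Or.inl h), rfl⟩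
      · split_ifs at h with h2
        · simp only [Finset.mem_singleton] at h
          exact ⟨⟨a, by omega⟩, Or.inr (Or.inr (Or.inl ⟨h, h2⟩)), rfl⟩
        · simp at h
      · split_ifs at h with h2
        · simp only [Finset.mem_singleton] at h
          exact ⟨⟨a, by omega⟩, Or.inr (Or.inr (Or.inr ⟨h, h2⟩)), rfl⟩
        · simp at h
  rw [← Set.ncard_image_of_injective _ Fin.val_injective, h1, Set.ncard_coe_finset]
  rw [Finset.card_union_of_disjoint, Finset.card_union_of_disjoint, Finset.card_union_of_disjoint,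
    Finset.card_union_of_disjoint]
  · rw [Finset.card_range, Nat.card_Ico]
    split_ifs <;> simp <;> omega
  · rw [Finset.disjoint_left]
    intro a h2 h3
    simp only [Finset.mem_range, Finset.mem_Ico] at h2 h3
    omega
  · rw [Finset.disjoint_left]
    intro a h2 h3
    have := hL a h3
    simp only [Finset.mem_union, Finset.mem_range, Finset.mem_Ico] at h2
    omega
  · rw [Finset.disjoint_left]
    intro a h2 h3
    split_ifs at h3 with h4
    · simp only [Finset.mem_singleton] at h3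
      simp only [Finset.mem_union, Finset.mem_range, Finset.mem_Ico] at h2
      rcases h2 with h2 | h2
      · omega
      · have := hL a h2; omega
    · simp at h3
  · rw [Finset.disjoint_left]
    intro a h2 h3
    split_ifs at h3 with h4
    · simp only [Finset.mem_singleton] at h3
      simp only [Finset.mem_union, Finset.mem_range, Finset.mem_Ico] at h2
      rcases h2 with (h2 | h2) | h2
      · omega
      · have := hL a h2; omega
      · split_ifs at h2 with h5
        · simp only [Finset.mem_singleton] at h2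
          omega
        · simp at h2
    · simp at h3

end Pool.Agent.Q83.Mean
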