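import Mathlib

namespace Pool.Agent.Q83.Mean

/-- pairs `α ≤ s < t ≤ α + E` -/
def P (α E : ℕ) : Finset (ℕ × ℕ) :=
  (Finset.Ico α (α + E) ×ˢ Finset.Ioc α (α + E)).filter (fun p => p.1 < p.2)

theorem mem_P {α E s t : ℕ} : (s, t) ∈ P α E ↔ α ≤ s ∧ s < t ∧ t ≤ α + E := by
  simp only [P, Finset.mem_filter, Finset.mem_product, Finset.mem_Ico, Finset.mem_Ioc]
  omega

theorem inner_sum (α k : ℕ) (t a b : ℚ) :
    ∑ s ∈ Finset.Ico α (α + k), (a + b * (t - s)) = a * k + b * (t * k - α * k - k * (k - 1) / 2) := by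
  induction k with
  | zero => simp
  | succ k ih =>
    rw [← Nat.add_assoc, Finset.sum_Ico_succ_top (by omega), ih]
    push_cast
    ring

theorem sum_P (α E : ℕ) (a b : ℚ) :
    ∑ p ∈ P α E, (a + b * ((p.2 : ℚ) - p.1)) =
      a * (E * (E + 1) / 2) + b * (E * (E + 1) * (E + 2) / 6) := by
  have h1 : ∑ p ∈ P α E, (a + b * ((p.2 : ℚ) - p.1)) =
      ∑ t ∈ Finset.Ioc α (α + E), ∑ s ∈ Finset.Ico α t, (a + b * ((t : ℚ) - s)) := by
    rw [P, Finset.sum_filter, Finset.sum_product_right]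
    refine Finset.sum_congr rfl (fun t ht => ?_)
    rw [Finset.mem_Ioc] at ht
    rw [← Finset.sum_filter]
    refine Finset.sum_congr ?_ (fun _ _ => rfl)
    ext s
    simp only [Finset.mem_filter, Finset.mem_Ico]
    omega
  rw [h1]
  clear h1
  induction E with
  | zero => simp
  | succ E ih =>
    rw [← Nat.add_assoc, Finset.sum_Ioc_succ_top (by omega), ih, Nat.add_assoc, inner_sum]
    push_cast
    ring

theorem sum_cross (m e : ℕ) (a b : ℚ) :
    ∑ p ∈ Finset.range m ×ˢ Finset.Ioc m (m + e), (a + b * ((p.2 : ℚ) - p.1)) =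
      a * (m * e) + b * (m * e * (m + e + 2) / 2) := by
  rw [Finset.sum_product_right]
  have h1 : ∀ t : ℕ, ∑ s ∈ Finset.range m, (a + b * ((t : ℚ) - s)) =
      a * m + b * (t * m - m * (m - 1) / 2) := by
    intro t
    have := inner_sum 0 m t a b
    rw [Nat.zero_add, ← Finset.range_eq_Ico] at this
    rw [this]
    push_cast
    ring
  simp only [h1]
  induction e with
  | zero => simp
  | succ e ih =>
    rw [← Nat.add_assoc, Finset.sum_Ioc_succ_top (by omega), ih]
    push_cast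
    ring

end Pool.Agent.Q83.Mean
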