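import Pool.Agent.Q83.Mean.Count
import Pool.Agent.Q83.Mean.Sum

namespace Pool.Agent.Q83.Mean

open SimpleGraph

variable {N m c r : ℕ}

/-- the core vertices -/
def K (N r : ℕ) : Finset ℕ := Finset.range N ∪ {N + 2 * r, N + 2 * r + 1}

theorem nbr_of_conn (T : (G N m c r).Subgraph) (hT : T.coe.Connected) {a a' : ℕ} (ha : VTs T a)
    (ha' : VTs T a') (hne : a' ≠ a) : ∃ b, ETs T b a := by
  by_contra hno
  push Not at hno
  obtain ⟨h1, h2⟩ := ha
  obtain ⟨h1', h2'⟩ := ha'
  have := closed_of_connected hT (u := ⟨⟨a', h1'⟩, h2'⟩) (fun z => z.1.1 ≠ a) hne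
    (fun x y _ hxy hy => hno x.1.1 ⟨x.1.2, h1, by
      have e : (⟨a, h1⟩ : Fin (N + 2 * r + 2)) = y.1 := Fin.ext hy.symm
      rw [e]; exact hxy⟩) ⟨⟨a, h1⟩, h2⟩
  exact this rfl

theorem ETs_R (T : (G N m c r).Subgraph) {a b : ℕ} (h : ETs T a b) :
    R N m c r a b ∨ R N m c r b a := by
  obtain ⟨_, _, h⟩ := h
  exact T.adj_sub h

theorem ETs_symm (T : (G N m c r).Subgraph) {a b : ℕ} (h : ETs T a b) : ETs T b a := by
  obtain ⟨ha, hb, h⟩ := h
  exact ⟨hb, ha, h.symm⟩

theorem ETs_vert (T : (G N m c r).Subgraph) {a b : ℕ} (h : ETs T a b) : VTs T a := by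
  obtain ⟨ha, hb, h⟩ := h
  exact ⟨ha, T.edge_vert h⟩

theorem leaf0 (hm : 0 < m) (hmc : m < c) (hcN : c < N) (T : (G N m c r).Subgraph)
    (hT : T.coe.Connected) {a a' : ℕ} (h1 : N ≤ a) (h2 : a < N + r) (ha : VTs T a)
    (ha' : VTs T a') (hne : a' ≠ a) : ETs T 0 a := by
  obtain ⟨b, hb⟩ := nbr_of_conn T hT ha ha' hne
  have : b = 0 := by
    have := ETs_R T hb
    unfold R at this
    omega
  rwa [this] at hb

theorem leafc (hm : 0 < m) (hmc : m < c) (hcN : c < N) (T : (G N m c r).Subgraph)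
    (hT : T.coe.Connected) {a a' : ℕ} (h1 : N + r ≤ a) (h2 : a < N + 2 * r) (ha : VTs T a)
    (ha' : VTs T a') (hne : a' ≠ a) : ETs T c a := by
  obtain ⟨b, hb⟩ := nbr_of_conn T hT ha ha' hne
  have : b = c := by
    have := ETs_R T hb
    unfold R at this
    omega
  rwa [this] at hb

open Classical in
/-- the code of a subgraph -/
noncomputable def code (T : (G N m c r).Subgraph) :
    (Finset ℕ × Finset (ℕ × ℕ)) × Finset ℕ :=
  (((K N r).filter (VTs T), (K N r ×ˢ K N r).filter (fun p => ETs T p.1 p.2)),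
    (Finset.Ico N (N + 2 * r)).filter (VTs T))

theorem mem_K {a : ℕ} : a ∈ K N r ↔ a < N ∨ a = N + 2 * r ∨ a = N + 2 * r + 1 := by
  simp only [K, Finset.mem_union, Finset.mem_range, Finset.mem_insert, Finset.mem_singleton]

theorem code_inj (hm : 0 < m) (hmc : m < c) (hcN : c < N) {T T' : (G N m c r).Subgraph}
    (hT : T.coe.Connected) (hT' : T'.coe.Connected) (h : code T = code T') : T = T' := by
  classical
  have h1 : ∀ a ∈ K N r, (VTs T a ↔ VTs T' a) := by
    intro a ha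
    have := congrArg (fun z => a ∈ z.1.1) h
    simpa [code, ha] using this
  have h2 : ∀ a ∈ K N r, ∀ b ∈ K N r, (ETs T a b ↔ ETs T' a b) := by
    intro a ha b hb
    have := congrArg (fun z => (a, b) ∈ z.1.2) h
    simpa [code, ha, hb] using this
  have h3 : ∀ a, N ≤ a → a < N + 2 * r → (VTs T a ↔ VTs T' a) := by
    intro a ha hb
    have := congrArg (fun z => a ∈ z.2) h
    simpa [code, ha, hb] using this
  have hV : ∀ a, VTs T a ↔ VTs T' a := by
    intro a
    by_cases ha : a ∈ K N r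
    · exact h1 a ha
    · rw [mem_K] at ha
      by_cases hb : a < N + 2 * r
      · exact h3 a (by omega) hb
      · constructor
        · rintro ⟨h4, _⟩; omega
        · rintro ⟨h4, _⟩; omega
  have key : ∀ {T T' : (G N m c r).Subgraph}, T'.coe.Connected → (∀ a, VTs T a ↔ VTs T' a) →
      (∀ a ∈ K N r, ∀ b ∈ K N r, (ETs T a b ↔ ETs T' a b)) →
      ∀ a b, R N m c r a b → ETs T a b → ETs T' a b := by
    intro T T' hT' hV h2 a b hR hE
    have ha := ETs_vert T hE
    have hb := ETs_vert T (ETs_symm T hE)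
    rcases hR with ⟨hlt, h | h | h | h | h | h⟩
    · exact (h2 a (mem_K.2 (by omega)) b (mem_K.2 (by omega))).1 hE
    · exact (h2 a (mem_K.2 (by omega)) b (mem_K.2 (by omega))).1 hE
    · rw [h.1]
      exact leaf0 hm hmc hcN T' hT' h.2.1 h.2.2 ((hV _).1 hb) ((hV _).1 ha) (by omega)
    · rw [h.1]
      exact leafc hm hmc hcN T' hT' h.2.1 h.2.2 ((hV _).1 hb) ((hV _).1 ha) (by omega)
    · exact (h2 a (mem_K.2 (by omega)) b (mem_K.2 (by omega))).1 hE
    · exact (h2 a (mem_K.2 (by omega)) b (mem_K.2 (by omega))).1 hE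
  refine Sub_ext hV (fun a b => ⟨fun hE => ?_, fun hE => ?_⟩)
  · rcases ETs_R T hE with hR | hR
    · exact key hT' hV h2 a b hR hE
    · exact ETs_symm _ (key hT' hV h2 b a hR (ETs_symm _ hE))
  · have hV' : ∀ a, VTs T' a ↔ VTs T a := fun a => (hV a).symm
    have h2' : ∀ a ∈ K N r, ∀ b ∈ K N r, (ETs T' a b ↔ ETs T a b) :=
      fun a ha b hb => (h2 a ha b hb).symm
    rcases ETs_R T' hE with hR | hR
    · exact key hT hV' h2' a b hR hE
    · exact ETs_symm _ (key hT hV' h2' b a hR (ETs_symm _ hE))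

/-- the connected subgraphs missing a hub -/
def Oth (N m c r : ℕ) : Set (G N m c r).Subgraph :=
  {T | T.coe.Connected ∧ ¬ (VTs T 0 ∧ VTs T c)}

/-- the bound for the codes -/
def Xb (N : ℕ) : ℕ := 2 ^ (N + 2 + (N + 2) * (N + 2) + 1)

theorem Oth_card (hm : 0 < m) (hmc : m < c) (hcN : c < N) :
    (Oth N m c r).ncard ≤ Xb N * 2 ^ r := by
  classical
  let B : Finset ((Finset ℕ × Finset (ℕ × ℕ)) × Finset ℕ) :=
    ((K N r).powerset ×ˢ (K N r ×ˢ K N r).powerset) ×ˢ
      ((Finset.Ico N (N + r)).powerset ∪ (Finset.Ico (N + r) (N + 2 * r)).powerset)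
  have hK : (K N r).card ≤ N + 2 := by
    unfold K
    refine (Finset.card_union_le _ _).trans ?_
    rw [Finset.card_range]
    have := Finset.card_le_two (a := N + 2 * r) (b := N + 2 * r + 1)
    omega
  have hB : B.card ≤ Xb N * 2 ^ r := by
    simp only [B, Finset.card_product, Finset.card_powerset]
    have h1 : (Finset.card ((Finset.Ico N (N + r)).powerset ∪
        (Finset.Ico (N + r) (N + 2 * r)).powerset)) ≤ 2 * 2 ^ r := by
      refine (Finset.card_union_le _ _).trans ?_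
      rw [Finset.card_powerset, Finset.card_powerset, Nat.card_Ico, Nat.card_Ico]
      have e1 : N + r - N = r := by omega
      have e2 : N + 2 * r - (N + r) = r := by omega
      rw [e1, e2]; omega
    have h2 : 2 ^ (K N r).card ≤ 2 ^ (N + 2) := Nat.pow_le_pow_right (by norm_num) hK
    have h3 : 2 ^ ((K N r).card * (K N r).card) ≤ 2 ^ ((N + 2) * (N + 2)) :=
      Nat.pow_le_pow_right (by norm_num) (Nat.mul_le_mul hK hK)
    calc _ ≤ 2 ^ (N + 2) * 2 ^ ((N + 2) * (N + 2)) * (2 * 2 ^ r) :=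
          Nat.mul_le_mul (Nat.mul_le_mul h2 h3) h1
      _ = Xb N * 2 ^ r := by
          unfold Xb
          rw [pow_add _ (N + 2 + (N + 2) * (N + 2)) 1, pow_add _ (N + 2) ((N + 2) * (N + 2))]
          ring
  refine le_trans ?_ hB
  rw [← Set.ncard_coe_finset B]
  refine Set.ncard_le_ncard_of_injOn code ?_ ?_ (Finset.finite_toSet B)
  · rintro T ⟨hT, hh⟩
    simp only [B, code, Finset.coe_product, Finset.coe_union, Set.mem_prod, Finset.mem_coe,
      Finset.mem_powerset, Set.mem_union]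
    refine ⟨⟨Finset.filter_subset _ _, Finset.filter_subset _ _⟩, ?_⟩
    -- generic argument
    by_cases h0 : ∃ a, N ≤ a ∧ a < N + r ∧ VTs T a
    · obtain ⟨a, ha1, ha2, ha3⟩ := h0
      by_cases hc : ∃ b, N + r ≤ b ∧ b < N + 2 * r ∧ VTs T b
      · exfalso
        obtain ⟨b, hb1, hb2, hb3⟩ := hc
        exact hh ⟨ETs_vert T (leaf0 hm hmc hcN T hT ha1 ha2 ha3 hb3 (by omega)),
          ETs_vert T (leafc hm hmc hcN T hT hb1 hb2 hb3 ha3 (by omega))⟩
      · left
        intro b hb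
        simp only [Finset.mem_filter, Finset.mem_Ico] at hb ⊢
        refine ⟨hb.1.1, ?_⟩
        by_contra hlt
        exact hc ⟨b, by omega, hb.1.2, hb.2⟩
    · right
      intro b hb
      simp only [Finset.mem_filter, Finset.mem_Ico] at hb ⊢
      refine ⟨?_, hb.1.2⟩
      by_contra hlt
      exact h0 ⟨b, hb.1.1, by omega, hb.2⟩
  · rintro T ⟨hT, _⟩ T' ⟨hT', _⟩ h
    exact code_inj hm hmc hcN hT hT' h

end Pool.Agent.Q83.Mean
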