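import Pool.Agent.Q83.Mean.Main

namespace Pool.Agent.Q83.Mean

open SimpleGraph

/-- the mean of a function over a set -/
noncomputable def mean {α : Type*} (s : Set α) (f : α → ℕ) : ℚ :=
  (∑ᶠ x ∈ s, (f x : ℚ)) / (s.ncard : ℚ)

theorem mean_split {α : Type*} [Finite α] (s : Set α) (A : Finset α) (hA : (A : Set α) ⊆ s)
    (f : α → ℕ) (M : ℕ) (hf : ∀ x, f x ≤ M) : ∃ d : ℚ, 0 ≤ d ∧ d ≤ ((s \ A).ncard : ℚ) * M ∧
      mean s f = (∑ x ∈ A, (f x : ℚ) + d) / ((A.card : ℚ) + ((s \ A).ncard : ℚ)) := by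
  classical
  have hfin : s.Finite := s.toFinite
  have hfin2 : (s \ (A : Set α)).Finite := Set.toFinite _
  refine ⟨∑ x ∈ hfin2.toFinset, (f x : ℚ), ?_, ?_, ?_⟩
  · exact Finset.sum_nonneg (fun _ _ => by positivity)
  · rw [Set.ncard_eq_toFinset_card _ hfin2, ← nsmul_eq_mul]
    exact Finset.sum_le_card_nsmul _ _ _ (fun x _ => by exact_mod_cast hf x)
  · unfold mean
    congr 1
    · rw [finsum_mem_eq_finite_toFinset_sum _ hfin]
      have : hfin.toFinset = A ∪ hfin2.toFinset := by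
        ext x
        simp only [Set.Finite.mem_toFinset, Finset.mem_union, Set.mem_sdiff, Finset.mem_coe]
        constructor
        · intro h
          by_cases hx : x ∈ A
          · exact Or.inl hx
          · exact Or.inr ⟨h, hx⟩
        · rintro (h | h)
          · exact hA h
          · exact h.1
      rw [this, Finset.sum_union]
      rw [Finset.disjoint_left]
      intro x hx hx2
      simp only [Set.Finite.mem_toFinset, Set.mem_sdiff, Finset.mem_coe] at hx2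
      exact hx2.2 hx
    · have h1 := Set.ncard_sdiff_add_ncard_of_subset hA hfin
      rw [← h1, Set.ncard_coe_finset]
      push_cast
      ring

theorem sum_card_powerset (s : Finset ℕ) :
    ∑ L ∈ s.powerset, (L.card : ℚ) = s.card * 2 ^ s.card / 2 := by
  induction s using Finset.induction_on with
  | empty => simp
  | insert a s ha ih =>
    rw [Finset.sum_powerset_insert ha, ih]
    have : ∑ t ∈ s.powerset, ((insert a t).card : ℚ) = ∑ t ∈ s.powerset, ((t.card : ℚ) + 1) := by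
      refine Finset.sum_congr rfl (fun t ht => ?_)
      rw [Finset.mem_powerset] at ht
      rw [Finset.card_insert_of_notMem (fun h => ha (ht h))]
      push_cast; ring
    rw [this, Finset.sum_add_distrib, ih, Finset.sum_const, Finset.card_powerset,
      Finset.card_insert_of_notMem ha]
    simp only [nsmul_eq_mul, mul_one]
    push_cast
    ring

theorem sum_data (C : Finset ((ℕ × ℕ) × ℕ)) (f : (ℕ × ℕ) × ℕ → ℚ) (N r : ℕ) :
    ∑ d ∈ C ×ˢ (Finset.Ico N (N + 2 * r)).powerset, (f d.1 + (d.2.card : ℚ)) =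
      4 ^ r * (∑ x ∈ C, f x + r * C.card) := by
  rw [Finset.sum_product]
  simp only [Finset.sum_add_distrib, Finset.sum_const, Finset.card_powerset, Nat.card_Ico,
    sum_card_powerset, nsmul_eq_mul]
  have e1 : N + 2 * r - N = 2 * r := by omega
  have e2 : (2 : ℚ) ^ (2 * r) = 4 ^ r := by rw [pow_mul]; norm_num
  rw [e1, ← Finset.mul_sum]
  push_cast
  rw [e2]
  ring

variable {m e B r : ℕ}

theorem Ok_of_CT {s t g : ℕ} {L : Finset ℕ} (h : ((s, t), g) ∈ CT m e B)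
    (hL : L ∈ (Finset.Ico (m + e + B) (m + e + B + 2 * r)).powerset) :
    Ok (m + e + B) m (m + e) r s t g L := by
  rw [mem_CT] at h
  rw [Finset.mem_powerset] at hL
  exact ⟨h.1, h.2.1, h.2.2.2.1, fun a ha => Finset.mem_Ico.1 (hL ha), h.2.2.1, h.2.2.2.2⟩

open Classical in
/-- the subtrees containing both hubs -/
noncomputable def T1 (m e B r : ℕ) : Finset (G (m + e + B) m (m + e) r).Subgraph :=
  (CT m e B ×ˢ (Finset.Ico (m + e + B) (m + e + B + 2 * r)).powerset).image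
    (fun d => Phi (m + e + B) m (m + e) r d.1.1.1 d.1.1.2 d.1.2 d.2)

theorem mem_T1 (hm : 0 < m) (he : 0 < e) (hB : 0 < B)
    (T : (G (m + e + B) m (m + e) r).Subgraph) :
    T ∈ T1 m e B r ↔ T.coe.IsTree ∧ VTs T 0 ∧ VTs T (m + e) := by
  classical
  unfold T1
  rw [Finset.mem_image]
  constructor
  · rintro ⟨⟨⟨⟨s, t⟩, g⟩, L⟩, hd, rfl⟩
    rw [Finset.mem_product] at hd
    have hO := Ok_of_CT hd.1 hd.2
    refine ⟨Phi_tree hO hm (by omega) (by omega), ?_, ?_⟩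
    · rw [VTs_Phi hO]
      exact InV.zero (c := m + e) (by omega)
    · rw [VTs_Phi hO]
      exact Or.inl ⟨by omega, hO.hc⟩
  · rintro ⟨hT, h0, hc⟩
    obtain ⟨s, t, g, L, hO, rfl⟩ := exists_Phi hm (by omega) (by omega) T hT h0 hc
    refine ⟨(((s, t), g), L), ?_, rfl⟩
    rw [Finset.mem_product, mem_CT, Finset.mem_powerset]
    exact ⟨⟨hO.st, hO.tN, hO.hc, hO.g6, hO.hm⟩, fun a ha => Finset.mem_Ico.2 (hO.hL a ha)⟩

theorem T1_inj (hm : 0 < m) (he : 0 < e) (hB : 0 < B) :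
    Set.InjOn (fun d : ((ℕ × ℕ) × ℕ) × Finset ℕ =>
      Phi (m + e + B) m (m + e) r d.1.1.1 d.1.1.2 d.1.2 d.2)
      (CT m e B ×ˢ (Finset.Ico (m + e + B) (m + e + B + 2 * r)).powerset : Finset _) := by
  rintro ⟨⟨⟨s, t⟩, g⟩, L⟩ hd ⟨⟨⟨s', t'⟩, g'⟩, L'⟩ hd' h
  rw [Finset.mem_coe, Finset.mem_product] at hd hd'
  obtain ⟨rfl, rfl, rfl, rfl⟩ := Phi_inj hm (by omega) (by omega) (Ok_of_CT hd.1 hd.2)
    (Ok_of_CT hd'.1 hd'.2) h
  rfl

theorem T1_card (hm : 0 < m) (he : 0 < e) (hB : 0 < B) :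
    ((T1 m e B r).card : ℚ) = 4 ^ r * (CT m e B).card := by
  classical
  rw [T1, Finset.card_image_of_injOn (T1_inj hm he hB), Finset.card_product,
    Finset.card_powerset, Nat.card_Ico]
  have e1 : m + e + B + 2 * r - (m + e + B) = 2 * r := by omega
  rw [e1, pow_mul]
  push_cast
  norm_num
  ring

theorem T1_sum (hm : 0 < m) (he : 0 < e) (hB : 0 < B) :
    ∑ T ∈ T1 m e B r, (T.verts.ncard : ℚ) =
      4 ^ r * (∑ d ∈ CT m e B, (sz (m + e + B) d : ℚ) + r * (CT m e B).card) := by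
  classical
  rw [← sum_data (CT m e B) (fun d => (sz (m + e + B) d : ℚ)) (m + e + B) r, T1,
    Finset.sum_image (T1_inj hm he hB)]
  refine Finset.sum_congr rfl ?_
  rintro ⟨⟨⟨s, t⟩, g⟩, L⟩ hd
  rw [Finset.mem_product] at hd
  have hO := Ok_of_CT hd.1 hd.2
  have h1 : (Phi (m + e + B) m (m + e) r s t g L).verts = SV (m + e + B) r s t g L := rfl
  have h2 := SV_card hO.st hO.tN hO.hL (g := g)
  show (((Phi (m + e + B) m (m + e) r s t g L).verts.ncard : ℕ) : ℚ) = _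
  rw [h1, h2]
  unfold sz
  push_cast
  ring

theorem Ok_of_CS {s t g : ℕ} {L : Finset ℕ} (h : ((s, t), g) ∈ CS m e B)
    (hL : L ∈ (Finset.Ico (m + e + B + 3) (m + e + B + 3 + 2 * r)).powerset) :
    Ok (m + e + B + 3) (m + 1) (m + e + 2) r s t g L ∧ Can (m + e + B + 3) s t g := by
  rw [mem_CS] at h
  rw [Finset.mem_powerset] at hL
  exact ⟨⟨h.1, h.2.1, by omega, fun a ha => Finset.mem_Ico.1 (hL ha), h.2.2.1, h.2.2.2.2.1⟩,
    h.2.2.2.1, h.2.2.2.2.2⟩

open Classical in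
/-- the connected sets containing both hubs -/
noncomputable def S1 (m e B r : ℕ) : Finset (Set (Fin (m + e + B + 3 + 2 * r + 2))) :=
  (CS m e B ×ˢ (Finset.Ico (m + e + B + 3) (m + e + B + 3 + 2 * r)).powerset).image
    (fun d => SV (m + e + B + 3) r d.1.1.1 d.1.1.2 d.1.2 d.2)

theorem mem_S1 (S : Set (Fin (m + e + B + 3 + 2 * r + 2))) :
    S ∈ S1 m e B r ↔ ((G (m + e + B + 3) (m + 1) (m + e + 2) r).induce S).Connected ∧
      (⟨0, by omega⟩ : Fin (m + e + B + 3 + 2 * r + 2)) ∈ S ∧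
      (⟨m + e + 2, by omega⟩ : Fin (m + e + B + 3 + 2 * r + 2)) ∈ S := by
  classical
  unfold S1
  rw [Finset.mem_image]
  constructor
  · rintro ⟨⟨⟨⟨s, t⟩, g⟩, L⟩, hd, rfl⟩
    rw [Finset.mem_product] at hd
    obtain ⟨hO, hC⟩ := Ok_of_CS hd.1 hd.2
    refine ⟨Phi_conn hO (by omega) (by omega) (by omega), ?_, ?_⟩
    · exact InV.zero (c := m + e + 2) (by omega)
    · exact Or.inl ⟨by show m + e + 2 < _; omega, hO.hc⟩
  · rintro ⟨hS, h0, hc⟩
    obtain ⟨s, t, g, L, hO, hC, rfl⟩ :=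
      exists_SV (m := m + 1) (c := m + e + 2) (by omega) (by omega) (by omega) S hS h0 hc
    refine ⟨(((s, t), g), L), ?_, rfl⟩
    rw [Finset.mem_product, mem_CS, Finset.mem_powerset]
    exact ⟨⟨hO.st, hO.tN, hO.hc, hC.1, hO.hm, hC.2⟩, fun a ha => Finset.mem_Ico.2 (hO.hL a ha)⟩

theorem S1_inj :
    Set.InjOn (fun d : ((ℕ × ℕ) × ℕ) × Finset ℕ =>
      SV (m + e + B + 3) r d.1.1.1 d.1.1.2 d.1.2 d.2)
      (CS m e B ×ˢ (Finset.Ico (m + e + B + 3) (m + e + B + 3 + 2 * r)).powerset : Finset _) := by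
  rintro ⟨⟨⟨s, t⟩, g⟩, L⟩ hd ⟨⟨⟨s', t'⟩, g'⟩, L'⟩ hd' h
  rw [Finset.mem_coe, Finset.mem_product] at hd hd'
  obtain ⟨hO, hC⟩ := Ok_of_CS hd.1 hd.2
  obtain ⟨hO', hC'⟩ := Ok_of_CS hd'.1 hd'.2
  obtain ⟨rfl, rfl, rfl, rfl⟩ := SV_inj (m := m + 1) (c := m + e + 2) (by omega) (by omega)
    (by omega) hO hO' hC hC' h
  rfl

theorem S1_card : ((S1 m e B r).card : ℚ) = 4 ^ r * (CS m e B).card := by
  classical
  rw [S1, Finset.card_image_of_injOn S1_inj, Finset.card_product,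
    Finset.card_powerset, Nat.card_Ico]
  have e1 : m + e + B + 3 + 2 * r - (m + e + B + 3) = 2 * r := by omega
  rw [e1, pow_mul]
  push_cast
  norm_num
  ring

theorem S1_sum : ∑ S ∈ S1 m e B r, (S.ncard : ℚ) =
      4 ^ r * (∑ d ∈ CS m e B, (sz (m + e + B + 3) d : ℚ) + r * (CS m e B).card) := by
  classical
  rw [← sum_data (CS m e B) (fun d => (sz (m + e + B + 3) d : ℚ)) (m + e + B + 3) r, S1,
    Finset.sum_image S1_inj]
  refine Finset.sum_congr rfl ?_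
  rintro ⟨⟨⟨s, t⟩, g⟩, L⟩ hd
  rw [Finset.mem_product] at hd
  obtain ⟨hO, hC⟩ := Ok_of_CS hd.1 hd.2
  have h2 := SV_card hO.st hO.tN hO.hL (g := g)
  show (((SV (m + e + B + 3) r s t g L).ncard : ℕ) : ℚ) = _
  rw [h2]
  unfold sz
  push_cast
  ring

end Pool.Agent.Q83.Mean
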