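import Pool.Agent.Q83.Mean.Set

namespace Pool.Agent.Q83.Mean

open SimpleGraph

variable {N m c r : ℕ}

/-- the vertices of a subgraph as a predicate on numbers -/
def VTs (T : (G N m c r).Subgraph) (a : ℕ) : Prop :=
  ∃ h : a < N + 2 * r + 2, (⟨a, h⟩ : Fin (N + 2 * r + 2)) ∈ T.verts

/-- the edges of a subgraph as a predicate on numbers -/
def ETs (T : (G N m c r).Subgraph) (a b : ℕ) : Prop :=
  ∃ (ha : a < N + 2 * r + 2) (hb : b < N + 2 * r + 2), T.Adj ⟨a, ha⟩ ⟨b, hb⟩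

theorem VTs_val (T : (G N m c r).Subgraph) (a : Fin (N + 2 * r + 2)) : VTs T a ↔ a ∈ T.verts :=
  ⟨fun ⟨_, h⟩ => h, fun h => ⟨a.2, h⟩⟩

theorem ETs_val (T : (G N m c r).Subgraph) (a b : Fin (N + 2 * r + 2)) :
    ETs T a b ↔ T.Adj a b :=
  ⟨fun ⟨_, _, h⟩ => h, fun h => ⟨a.2, b.2, h⟩⟩

theorem toCF (T : (G N m c r).Subgraph) (hT : T.coe.Connected) (h0 : VTs T 0) (hc : VTs T c) :
    CF N m c r (VTs T) (ETs T) where
  symm := fun a b ⟨ha, hb, h⟩ => ⟨hb, ha, h.symm⟩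
  sub := fun a b ⟨ha, hb, h⟩ => T.adj_sub h
  vert := fun a b ⟨ha, hb, h⟩ => ⟨ha, T.edge_vert h⟩
  lt := fun a ⟨h, _⟩ => h
  root := h0
  hub := hc
  closed := by
    intro P hP0 hP a ⟨ha, hav⟩
    obtain ⟨h0', h0v⟩ := h0
    exact closed_of_connected hT (u := ⟨⟨0, h0'⟩, h0v⟩) (fun z => P z.1.1) hP0
      (fun x y hx hxy => hP _ _ hx ⟨x.1.2, y.1.2, hxy⟩) ⟨⟨a, ha⟩, hav⟩

theorem toTF (T : (G N m c r).Subgraph) (hT : T.coe.IsTree) (h0 : VTs T 0) (hc : VTs T c) :
    TF N m c r (VTs T) (ETs T) where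
  toCF := toCF T hT.connected h0 hc
  bridge := by
    intro a b ⟨ha, hb, h⟩
    obtain ⟨P, h1, h2, h3⟩ := bridge_of_tree hT (a := ⟨⟨a, ha⟩, T.edge_vert h⟩)
      (b := ⟨⟨b, hb⟩, T.edge_vert h.symm⟩) h
    refine ⟨fun z => ∃ (hz : z < N + 2 * r + 2) (hz' : (⟨z, hz⟩ : Fin (N + 2 * r + 2)) ∈ T.verts),
      P ⟨⟨z, hz⟩, hz'⟩, ⟨ha, _, h1⟩, fun ⟨_, _, h⟩ => h2 h, ?_⟩
    rintro x y ⟨hx, hxv, hPx⟩ ⟨hx', hy, hxy⟩ hn1 hn2
    refine ⟨hy, T.edge_vert hxy.symm, h3 _ _ hPx hxy ?_ ?_⟩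
    · rintro ⟨e1, e2⟩
      rw [Subtype.mk.injEq, Fin.mk.injEq] at e1 e2
      exact hn1 ⟨e1, e2⟩
    · rintro ⟨e1, e2⟩
      rw [Subtype.mk.injEq, Fin.mk.injEq] at e1 e2
      exact hn2 ⟨e1, e2⟩

theorem VTs_Phi {s t g : ℕ} {L : Finset ℕ} (hO : Ok N m c r s t g L) (a : ℕ) :
    VTs (Phi N m c r s t g L) a ↔ InV N r s t g L a := by
  constructor
  · rintro ⟨_, h⟩; exact h
  · intro h
    refine ⟨?_, h⟩
    rcases h with h | h | h | h
    · omega
    · have := hO.hL a h; omega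
    · omega
    · omega

theorem ETs_Phi {s t g : ℕ} {L : Finset ℕ} (hO : Ok N m c r s t g L) (hm : 0 < m) (hmc : m < c)
    (hcN : c < N) (a b : ℕ) :
    ETs (Phi N m c r s t g L) a b ↔ TR N m c r s t g L a b ∨ TR N m c r s t g L b a := by
  constructor
  · rintro ⟨_, _, h⟩; exact h.1
  · intro h
    have key : (R N m c r a b ∨ R N m c r b a) ∧ InV N r s t g L a ∧ InV N r s t g L b := by
      rcases h with h | h
      · have := TR.spec hO hm hmc hcN h
        exact ⟨Or.inl this.1, this.2⟩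
      · have := TR.spec hO hm hmc hcN h
        exact ⟨Or.inr this.1, this.2.2, this.2.1⟩
    obtain ⟨ha, _⟩ := (VTs_Phi hO a).2 key.2.1
    obtain ⟨hb, _⟩ := (VTs_Phi hO b).2 key.2.2
    exact ⟨ha, hb, h, key⟩

theorem Sub_ext {T T' : (G N m c r).Subgraph} (h1 : ∀ a, VTs T a ↔ VTs T' a)
    (h2 : ∀ a b, ETs T a b ↔ ETs T' a b) : T = T' := by
  apply Subgraph.ext
  · ext a
    rw [← VTs_val, ← VTs_val]; exact h1 _
  · funext a b
    rw [← ETs_val, ← ETs_val]; exact propext (h2 _ _)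

/-- all subtrees containing both hubs are standard -/
theorem exists_Phi (hm : 0 < m) (hmc : m < c) (hcN : c < N) (T : (G N m c r).Subgraph)
    (hT : T.coe.IsTree) (h0 : VTs T 0) (hc : VTs T c) :
    ∃ s t g L, Ok N m c r s t g L ∧ T = Phi N m c r s t g L := by
  obtain ⟨s, t, g, L, hO, h1, h2⟩ := (toTF T hT h0 hc).cls hm hmc hcN
  refine ⟨s, t, g, L, hO, Sub_ext ?_ ?_⟩
  · intro a; rw [VTs_Phi hO, h1]
  · intro a b; rw [ETs_Phi hO hm hmc hcN, h2]

/-- the data of a standard subtree are determined -/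
theorem Phi_inj (hm : 0 < m) (hmc : m < c) (hcN : c < N) {s t g s' t' g' : ℕ} {L L' : Finset ℕ}
    (hO : Ok N m c r s t g L) (hO' : Ok N m c r s' t' g' L')
    (h : Phi N m c r s t g L = Phi N m c r s' t' g' L') :
    s = s' ∧ t = t' ∧ g = g' ∧ L = L' := by
  have hV : ∀ a, InV N r s t g L a ↔ InV N r s' t' g' L' a := by
    intro a; rw [← VTs_Phi hO, ← VTs_Phi hO', h]
  have hE : ∀ a b, (TR N m c r s t g L a b ∨ TR N m c r s t g L b a) ↔
      (TR N m c r s' t' g' L' a b ∨ TR N m c r s' t' g' L' b a) := by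
    intro a b; rw [← ETs_Phi hO hm hmc hcN, ← ETs_Phi hO' hm hmc hcN, h]
  obtain ⟨hst, htN, hg6, hL, hc, hm1⟩ := hO
  obtain ⟨hst', htN', hg6', hL', hc', hm1'⟩ := hO'
  have hLL : L = L' := by
    ext a
    have := hV a
    unfold InV at this
    constructor
    · intro ha
      have h1 := hL a ha
      rcases this.1 (Or.inr (Or.inl ha)) with h2 | h2 | h2 | h2
      · omega
      · exact h2
      · omega
      · omega
    · intro ha
      have h1 := hL' a ha
      rcases this.2 (Or.inr (Or.inl ha)) with h2 | h2 | h2 | h2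
      · omega
      · exact h2
      · omega
      · omega
  subst hLL
  -- cycle edges
  have key : ∀ (s t g : ℕ) (L : Finset ℕ), (∀ a ∈ L, N ≤ a ∧ a < N + 2 * r) → ∀ k, k + 1 < N →
      ((TR N m c r s t g L k (k + 1) ∨ TR N m c r s t g L (k + 1) k) ↔ (k < s ∨ t ≤ k)) := by
    intro s t g L hL k hk
    constructor
    · rintro (⟨h1, h2⟩ | ⟨h1, _⟩)
      · rcases h2 with h2 | h2 | h2 | h2 | h2 | h2 | h2
        · omega
        · omega
        · have := hL _ h2.2.1; omega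
        · have := hL _ h2.2.1; omega
        · omega
        · omega
        · omega
      · omega
    · intro h1
      exact Or.inl ⟨by omega, Or.inl ⟨rfl, hk, h1⟩⟩
  have key2 : ∀ (s t g : ℕ) (L : Finset ℕ), (∀ a ∈ L, N ≤ a ∧ a < N + 2 * r) →
      ((TR N m c r s t g L 0 (N - 1) ∨ TR N m c r s t g L (N - 1) 0) ↔ t < N) := by
    intro s t g L hL
    constructor
    · rintro (⟨h1, h2⟩ | ⟨h1, _⟩)
      · rcases h2 with h2 | h2 | h2 | h2 | h2 | h2 | h2
        · omega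
        · omega
        · have := hL _ h2.2.1; omega
        · have := hL _ h2.2.1; omega
        · omega
        · omega
        · omega
      · omega
    · intro h1
      exact Or.inl ⟨by omega, Or.inr (Or.inl ⟨rfl, by omega, h1⟩)⟩
  have hk : ∀ k, k < N → ((k < s ∨ t ≤ k) ↔ (k < s' ∨ t' ≤ k)) := by
    intro k hk
    by_cases h1 : k + 1 < N
    · rw [← key s t g L hL k h1, ← key s' t' g' L hL k h1]
      exact hE _ _
    · have h2 := hE 0 (N - 1)
      rw [key2 s t g L hL, key2 s' t' g' L hL] at h2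
      omega
  have hs : s = s' := by
    have h1 := hk s (by omega)
    have h2 := hk s' (by omega)
    omega
  have ht : t = t' := by
    have h1 := hk (t - 1) (by omega)
    have h2 := hk (t' - 1) (by omega)
    omega
  subst hs ht
  refine ⟨rfl, rfl, ?_, rfl⟩
  -- the triangle
  have v1 := hV (N + 2 * r)
  have v2 := hV (N + 2 * r + 1)
  have n1 : N + 2 * r ∉ L := fun h => by have := hL _ h; omega
  have n2 : N + 2 * r + 1 ∉ L := fun h => by have := hL _ h; omega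
  have hmL : m ∉ L := fun h => by have := hL _ h; omega
  unfold InV at v1 v2
  simp only [n1, n2, false_or, true_and] at v1 v2
  have w1 : (g = 1 ∨ 3 ≤ g) ↔ (g' = 1 ∨ 3 ≤ g') := by omega
  have w2 : 2 ≤ g ↔ 2 ≤ g' := by omega
  have key3 : ∀ g : ℕ, ((TR N m c r s t g L m (N + 2 * r) ∨ TR N m c r s t g L (N + 2 * r) m) ↔
      (g = 1 ∨ g = 3 ∨ g = 4)) := by
    intro g
    constructor
    · rintro (⟨h1, h2⟩ | ⟨h1, _⟩)
      · rcases h2 with h2 | h2 | h2 | h2 | h2 | h2 | h2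
        · omega
        · omega
        · exact absurd h2.2.1 n1
        · exact absurd h2.2.1 n1
        · omega
        · omega
        · omega
      · omega
    · intro h1
      exact Or.inl ⟨by omega, Or.inr (Or.inr (Or.inr (Or.inr (Or.inl ⟨rfl, rfl, h1⟩))))⟩
  have key4 : ∀ g : ℕ, ((TR N m c r s t g L (N + 2 * r) (N + 2 * r + 1) ∨
      TR N m c r s t g L (N + 2 * r + 1) (N + 2 * r)) ↔ (g = 4 ∨ g = 5)) := by
    intro g
    constructor
    · rintro (⟨h1, h2⟩ | ⟨h1, _⟩)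
      · rcases h2 with h2 | h2 | h2 | h2 | h2 | h2 | h2
        · omega
        · omega
        · exact absurd h2.2.1 n2
        · exact absurd h2.2.1 n2
        · omega
        · omega
        · omega
      · omega
    · intro h1
      exact Or.inl ⟨by omega, Or.inr (Or.inr (Or.inr (Or.inr (Or.inr (Or.inr ⟨rfl, rfl, h1⟩)))))⟩
  have e1 : (g = 1 ∨ g = 3 ∨ g = 4) ↔ (g' = 1 ∨ g' = 3 ∨ g' = 4) := by
    rw [← key3 g, ← key3 g']; exact hE _ _
  have e2 : (g = 4 ∨ g = 5) ↔ (g' = 4 ∨ g' = 5) := by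
    rw [← key4 g, ← key4 g']; exact hE _ _
  clear hk hE hV key key2 key3 key4 v1 v2
  omega

end Pool.Agent.Q83.Mean
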