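import Pool.Agent.Q83.Mean.End

namespace Pool.Agent.Q83.Mean

open SimpleGraph

theorem tree_bound {N m c e B : ℕ} (hN : N = m + e + B) (hc : c = m + e) (hm : 0 < m)
    (he : 0 < e) (hB : 0 < B) (r : ℕ) : ∃ d E : ℚ, 0 ≤ E ∧ E ≤ (Xb N : ℚ) * 2 ^ r ∧ 0 ≤ d ∧
      d ≤ (Xb N : ℚ) * 2 ^ r * ((N : ℚ) + 2 * r + 2) ∧
      mean {T : (G N m c r).Subgraph | T.coe.IsTree} (fun T => T.verts.ncard) =
        (4 ^ r * (∑ x ∈ CT m e B, (sz N x : ℚ) + r * (CT m e B).card) + d) /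
          (4 ^ r * (CT m e B).card + E) := by
  subst hN hc
  have hA : ((T1 m e B r : Finset _) : Set (G (m + e + B) m (m + e) r).Subgraph) ⊆
      {T : (G (m + e + B) m (m + e) r).Subgraph | T.coe.IsTree} := by
    intro T hT
    exact ((mem_T1 hm he hB T).1 hT).1
  have hf : ∀ T : (G (m + e + B) m (m + e) r).Subgraph, T.verts.ncard ≤ m + e + B + 2 * r + 2 := by
    intro T
    have := Set.ncard_le_card T.verts
    simpa using this
  obtain ⟨d, hd1, hd2, hd3⟩ := mean_split _ _ hA (fun T => T.verts.ncard) _ hf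
  have hO : (({T : (G (m + e + B) m (m + e) r).Subgraph | T.coe.IsTree} \
      ((T1 m e B r : Finset _) : Set _)).ncard) ≤ Xb (m + e + B) * 2 ^ r := by
    refine le_trans (Set.ncard_le_ncard ?_ (Set.toFinite _)) (Oth_card (c := m + e) hm
      (by omega) (by omega))
    rintro T ⟨hT, hT2⟩
    refine ⟨IsTree.connected hT, fun h => hT2 ?_⟩
    rw [Finset.mem_coe, mem_T1 hm he hB]
    exact ⟨hT, h⟩
  have hO' : ((({T : (G (m + e + B) m (m + e) r).Subgraph | T.coe.IsTree} \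
      ((T1 m e B r : Finset _) : Set _)).ncard : ℕ) : ℚ) ≤ (Xb (m + e + B) : ℚ) * 2 ^ r := by
    exact_mod_cast hO
  refine ⟨d, _, ?_, hO', hd1, ?_, ?_⟩
  · positivity
  · refine hd2.trans ?_
    have h2 : (((m + e + B + 2 * r + 2 : ℕ)) : ℚ) = ((m + e + B : ℕ) : ℚ) + 2 * r + 2 := by
      push_cast; ring
    rw [h2]
    exact mul_le_mul_of_nonneg_right hO' (by positivity)
  · rw [hd3, T1_card hm he hB, T1_sum hm he hB]

theorem set_bound {N M c m e B : ℕ} (hN : N = m + e + B + 3) (hc : c = m + e + 2)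
    (hM : M = m + 1) (r : ℕ) : ∃ d E : ℚ, 0 ≤ E ∧ E ≤ (Xb N : ℚ) * 2 ^ r ∧ 0 ≤ d ∧
      mean {S : Set (Fin (N + 2 * r + 2)) | ((G N M c r).induce S).Connected} (fun S => S.ncard) =
        (4 ^ r * (∑ x ∈ CS m e B, (sz N x : ℚ) + r * (CS m e B).card) + d) /
          (4 ^ r * (CS m e B).card + E) := by
  subst hN hc hM
  have hA : ((S1 m e B r : Finset _) : Set (Set (Fin (m + e + B + 3 + 2 * r + 2)))) ⊆
      {S | ((G (m + e + B + 3) (m + 1) (m + e + 2) r).induce S).Connected} := by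
    intro S hS
    exact ((mem_S1 S).1 hS).1
  have hf : ∀ S : Set (Fin (m + e + B + 3 + 2 * r + 2)), S.ncard ≤ m + e + B + 3 + 2 * r + 2 := by
    intro S
    have := Set.ncard_le_card S
    simpa using this
  obtain ⟨d, hd1, hd2, hd3⟩ := mean_split _ _ hA (fun S => S.ncard) _ hf
  have hO : (({S | ((G (m + e + B + 3) (m + 1) (m + e + 2) r).induce S).Connected} \
      ((S1 m e B r : Finset _) : Set _)).ncard) ≤ Xb (m + e + B + 3) * 2 ^ r := by
    refine le_trans ?_ (Oth_card (N := m + e + B + 3) (m := m + 1) (c := m + e + 2) (r := r)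
      (by omega) (by omega) (by omega))
    refine Set.ncard_le_ncard_of_injOn (fun S => (⊤ : (G (m + e + B + 3) (m + 1)
      (m + e + 2) r).Subgraph).induce S) ?_ ?_ (Set.toFinite _)
    · rintro S ⟨hS, hS2⟩
      refine ⟨?_, fun h => hS2 ?_⟩
      · have hS' : ((G (m + e + B + 3) (m + 1) (m + e + 2) r).induce S).Connected := hS
        rwa [induce_eq_coe_induce_top] at hS'
      · rw [Finset.mem_coe, mem_S1]
        exact ⟨hS, h.1.2, h.2.2⟩
    · intro S _ S' _ h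
      exact congrArg Subgraph.verts h
  have hO' : ((({S | ((G (m + e + B + 3) (m + 1) (m + e + 2) r).induce S).Connected} \
      ((S1 m e B r : Finset _) : Set _)).ncard : ℕ) : ℚ) ≤ (Xb (m + e + B + 3) : ℚ) * 2 ^ r := by
    exact_mod_cast hO
  refine ⟨d, _, ?_, hO', hd1, ?_⟩
  · positivity
  · rw [hd3, S1_card, S1_sum]

/-- both bounds with a common constant -/
theorem both_bounds {N M c m e B : ℕ} (hN : N = m + e + B + 3) (hc : c = m + e + 2)
    (hM : M = m + 1) : ∃ X : ℕ, 1 ≤ X ∧ ∀ r : ℕ,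
      (∃ d E : ℚ, 0 ≤ E ∧ E ≤ (X : ℚ) * 2 ^ r ∧ 0 ≤ d ∧
      d ≤ (X : ℚ) * 2 ^ r * ((N : ℚ) + 2 * r + 2) ∧
      mean {T : (G N M c r).Subgraph | T.coe.IsTree} (fun T => T.verts.ncard) =
        (4 ^ r * (∑ x ∈ CT (m + 1) (e + 1) (B + 1), (sz N x : ℚ) +
          r * (CT (m + 1) (e + 1) (B + 1)).card) + d) /
          (4 ^ r * (CT (m + 1) (e + 1) (B + 1)).card + E)) ∧
      (∃ d E : ℚ, 0 ≤ E ∧ E ≤ (X : ℚ) * 2 ^ r ∧ 0 ≤ d ∧
      mean {S : Set (Fin (N + 2 * r + 2)) | ((G N M c r).induce S).Connected} (fun S => S.ncard) =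
        (4 ^ r * (∑ x ∈ CS m e B, (sz N x : ℚ) + r * (CS m e B).card) + d) /
          (4 ^ r * (CS m e B).card + E)) := by
  refine ⟨Xb N, Nat.one_le_two_pow, fun r => ⟨?_, set_bound hN hc hM r⟩⟩
  subst hM
  have h := tree_bound (N := N) (m := m + 1) (c := c) (e := e + 1) (B := B + 1) (by omega)
    (by omega) (by omega) (by omega) (by omega) r
  exact h

theorem exists_pow (a b : ℚ) : ∃ r : ℕ, a + b * r < 2 ^ r := by
  obtain ⟨α, hα⟩ := exists_nat_ge a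
  obtain ⟨β, hβ⟩ := exists_nat_ge b
  let k := α + 2 * β
  refine ⟨2 * k, ?_⟩
  have h1 : (k : ℚ) + 1 ≤ 2 ^ k := by
    have : k + 1 ≤ 2 ^ k := Nat.lt_two_pow_self
    exact_mod_cast this
  have h2 : (2 : ℚ) ^ (2 * k) = 2 ^ k * 2 ^ k := by rw [← pow_add]; congr 1; ring
  have h3 : ((k : ℚ) + 1) * (k + 1) ≤ 2 ^ k * 2 ^ k :=
    mul_le_mul h1 h1 (by positivity) (by positivity)
  have h4 : (k : ℚ) = α + 2 * β := by simp [k]
  have h5 : (0 : ℚ) ≤ α := by positivity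
  have h6 : (0 : ℚ) ≤ β := by positivity
  rw [h2]
  refine lt_of_lt_of_le ?_ h3
  push_cast
  have h7 : b * (2 * k) ≤ β * (2 * k) := mul_le_mul_of_nonneg_right hβ (by positivity)
  have h8 : (0 : ℚ) ≤ k * α := by positivity
  have h9 : (k : ℚ) * k = k * α + k * (2 * β) := by rw [h4]; ring
  nlinarith

theorem final_ineq {Q y A nT mS nS n ET dT ES dS Δ r : ℚ} (hQ : 0 < Q) (hy : 0 ≤ y) (hyQ : y ≤ Q)
    (hnT : 0 < nT) (hnS : 0 < nS) (hn : 0 ≤ n) (hA : 0 ≤ A) (hmS : 0 ≤ mS + r * nS)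
    (hET : 0 ≤ ET) (hdT' : dT ≤ y * n) (hES : 0 ≤ ES) (hES' : ES ≤ y) (hdS : 0 ≤ dS)
    (_hdT : 0 ≤ dT)
    (hΔ : (mS + r * nS) * nT = A * nS + Δ) (hmain : y * (A + n * nS + n) < Q * Δ) :
    (Q * A + dT) / (Q * nT + ET) < (Q * (mS + r * nS) + dS) / (Q * nS + ES) := by
  have hQnT : 0 < Q * nT := by positivity
  have hQnS : 0 < Q * nS := by positivity
  rw [div_lt_div_iff₀ (by linarith) (by linarith)]
  have h1 : (Q * A + dT) * (Q * nS + ES) ≤ (Q * A + y * n) * (Q * nS + y) := by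
    apply mul_le_mul (by linarith) (by linarith) (by positivity) (by positivity)
  have h2 : Q * (mS + r * nS) * (Q * nT) ≤ (Q * (mS + r * nS) + dS) * (Q * nT + ET) := by
    apply mul_le_mul (by linarith) (by linarith) (by positivity) (by positivity)
  have h3 : (Q * A + y * n) * (Q * nS + y) ≤ Q * (Q * (A * nS)) + Q * (y * (A + n * nS + n)) := by
    have : y * n * y ≤ y * n * Q := mul_le_mul_of_nonneg_left hyQ (by positivity)
    nlinarith
  have h4 : Q * (mS + r * nS) * (Q * nT) = Q * (Q * (A * nS)) + Q * (Q * Δ) := by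
    calc Q * (mS + r * nS) * (Q * nT) = Q * (Q * ((mS + r * nS) * nT)) := by ring
      _ = _ := by rw [hΔ]; ring
  have h5 : Q * (y * (A + n * nS + n)) < Q * (Q * Δ) := mul_lt_mul_of_pos_left hmain hQ
  linarith

theorem assemble {X mT nT mS nS n0 dT ET dS ES : ℚ} {r : ℕ} (hX : 1 ≤ X) (hmT : 0 < mT)
    (hnT : 0 < nT) (hmS : 0 < mS) (hnS : 0 < nS) (hn0 : 0 ≤ n0)
    (hΔ : 1 ≤ mS * nT - mT * nS)
    (hr : X * (mT + (n0 + 2) * (nS + 1)) + X * (nT + 2 * (nS + 1)) * r < 2 ^ r)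
    (hET : 0 ≤ ET) (hdT : 0 ≤ dT) (hdT' : dT ≤ X * 2 ^ r * (n0 + 2 * r + 2))
    (hES : 0 ≤ ES) (hES' : ES ≤ X * 2 ^ r) (hdS : 0 ≤ dS) :
    (4 ^ r * (mT + r * nT) + dT) / (4 ^ r * nT + ET) <
      (4 ^ r * (mS + r * nS) + dS) / (4 ^ r * nS + ES) := by
  have hp : (0 : ℚ) < 2 ^ r := by positivity
  have h4 : (4 : ℚ) ^ r = 2 ^ r * 2 ^ r := by rw [← mul_pow]; norm_num
  have hr0 : (0 : ℚ) ≤ r := by positivity
  have hmain : X * ((mT + r * nT) + (n0 + 2 * r + 2) * nS + (n0 + 2 * r + 2)) < 2 ^ r := by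
    refine lt_of_le_of_lt (le_of_eq ?_) hr
    ring
  have h1 : 0 ≤ mT + r * nT := by positivity
  have h2 : 0 ≤ n0 + 2 * r + 2 := by positivity
  have h3 : 0 ≤ (n0 + 2 * r + 2) * nS := by positivity
  have hXr : X ≤ 2 ^ r := by
    refine le_trans ?_ hmain.le
    have h5 : 1 ≤ (mT + r * nT) + (n0 + 2 * r + 2) * nS + (n0 + 2 * r + 2) := by linarith
    have h6 : 0 ≤ X := by linarith
    calc X = X * 1 := by ring
      _ ≤ _ := mul_le_mul_of_nonneg_left h5 h6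
  have hX0 : 0 ≤ X := by linarith
  refine final_ineq (Q := 4 ^ r) (y := X * 2 ^ r) (A := mT + r * nT) (mS := mS)
    (nT := nT) (nS := nS) (n := n0 + 2 * r + 2) (Δ := mS * nT - mT * nS) (r := r)
    (by positivity) (by positivity) ?_ hnT hnS h2 h1
    (by positivity) hET hdT' hES hES' hdS hdT (by ring) ?_
  · rw [h4]
    exact mul_le_mul_of_nonneg_right hXr hp.le
  · rw [h4]
    have h5 : X * 2 ^ r * ((mT + r * nT) + (n0 + 2 * r + 2) * nS + (n0 + 2 * r + 2)) <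
        2 ^ r * 2 ^ r := by
      have := mul_lt_mul_of_pos_left hmain hp
      calc _ = 2 ^ r * (X * ((mT + r * nT) + (n0 + 2 * r + 2) * nS + (n0 + 2 * r + 2))) := by ring
        _ < _ := this
    refine lt_of_lt_of_le h5 ?_
    have h6 : (0 : ℚ) < 2 ^ r * 2 ^ r := by positivity
    calc (2 : ℚ) ^ r * 2 ^ r = 2 ^ r * 2 ^ r * 1 := by ring
      _ ≤ _ := mul_le_mul_of_nonneg_left hΔ h6.le

end Pool.Agent.Q83.Mean
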