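import Mathlib

namespace Pool.Agent.Q83.Mean

open SimpleGraph

/-- a graph with a height function in which every vertex other than the root has a lower
neighbour is connected -/
theorem connected_of_height {V : Type*} (H : SimpleGraph V) (u : V) (h : V → ℕ)
    (h1 : ∀ a, a ≠ u → ∃ b, H.Adj a b ∧ h b < h a) : H.Connected := by
  have hr : ∀ (n : ℕ) (a : V), h a ≤ n → H.Reachable a u := by
    intro n
    induction n with
    | zero =>
      intro a ha
      by_cases hau : a = u
      · subst hau; exact Reachable.refl _
      · obtain ⟨b, _, hb⟩ := h1 a hau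
        omega
    | succ n ih =>
      intro a ha
      by_cases hau : a = u
      · subst hau; exact Reachable.refl _
      · obtain ⟨b, hab, hb⟩ := h1 a hau
        exact hab.reachable.trans (ih b (by omega))
  rw [connected_iff_exists_forall_reachable]
  exact ⟨u, fun w => (hr _ w le_rfl).symm⟩

/-- a graph with a height function in which every vertex other than the root has a lower
neighbour, and at most one neighbour which is not higher, is a tree -/
theorem tree_of_height {V : Type*} (H : SimpleGraph V) (u : V) (h : V → ℕ)
    (h1 : ∀ a, a ≠ u → ∃ b, H.Adj a b ∧ h b < h a)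
    (h2 : ∀ a b b', H.Adj a b → H.Adj a b' → h b ≤ h a → h b' ≤ h a → b = b') : H.IsTree := by
  refine { connected := connected_of_height H u h h1, isAcyclic := ?_ }
  intro v c hc
  classical
  obtain ⟨a, ha, hmax⟩ := Finset.exists_max_image c.support.toFinset h
    ⟨v, by simp⟩
  have ha' : a ∈ c.support := by simpa using ha
  have hc' : (c.rotate a ha').IsCycle := hc.rotate ha'
  have hs : (c.rotate a ha').snd ∈ c.support := by
    rw [← Walk.mem_support_rotate_iff c a ha']
    exact Walk.getVert_mem_support _ _
  have hp : (c.rotate a ha').penultimate ∈ c.support := by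
    rw [← Walk.mem_support_rotate_iff c a ha']
    exact Walk.getVert_mem_support _ _
  exact hc'.snd_ne_penultimate (h2 a _ _ (Walk.adj_snd hc'.not_nil)
    (Walk.adj_penultimate hc'.not_nil).symm (hmax _ (by simpa using hs))
    (hmax _ (by simpa using hp)))

/-- a set containing the root and closed under adjacency is everything -/
theorem closed_of_connected {V : Type*} {H : SimpleGraph V} (hH : H.Connected) {u : V}
    (P : V → Prop) (hu : P u) (hP : ∀ a b, P a → H.Adj a b → P b) (a : V) : P a := by
  obtain ⟨w⟩ := hH.preconnected u a
  have : ∀ {x y : V} (w : H.Walk x y), P x → P y := by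
    intro x y w
    induction w with
    | nil => exact id
    | cons hadj _ ih => exact fun hx => ih (hP _ _ hx hadj)
  exact this w hu

/-- an edge of a tree separates its ends -/
theorem bridge_of_tree {V : Type*} {H : SimpleGraph V} (hH : H.IsTree) {a b : V}
    (hab : H.Adj a b) : ∃ P : V → Prop, P a ∧ ¬ P b ∧
      ∀ x y, P x → H.Adj x y → ¬ (x = a ∧ y = b) → ¬ (x = b ∧ y = a) → P y := by
  have hb := (isAcyclic_iff_forall_adj_isBridge.1 hH.isAcyclic) hab
  rw [isBridge_iff] at hb
  refine ⟨fun x => (H.deleteEdges {s(a, b)}).Reachable a x, Reachable.refl _, hb, ?_⟩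
  intro x y hx hxy h1 h2
  refine hx.trans (Adj.reachable ?_)
  rw [deleteEdges_adj]
  refine ⟨hxy, ?_⟩
  simp only [Set.mem_singleton_iff, Sym2.eq_iff]
  rintro (h | h)
  · exact h1 h
  · exact h2 h

end Pool.Agent.Q83.Mean
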