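import Pool.Agent.Q83.Mean.Crude

namespace Pool.Agent.Q83.Mean

open SimpleGraph

/-- shift of pairs -/
def sh : ℕ × ℕ ↪ ℕ × ℕ := ⟨fun p => (p.1, p.2 + 1), fun p q h => by
  simp only [Prod.mk.injEq] at h
  exact Prod.ext h.1 (by omega)⟩

/-- the core data of trees; `c = m + e`, `N = c + B` -/
def CT (m e B : ℕ) : Finset ((ℕ × ℕ) × ℕ) :=
  (P 0 m ∪ P m e ∪ P (m + e) B) ×ˢ Finset.range 6 ∪
    (Finset.range m ×ˢ Finset.Ioc m (m + e)) ×ˢ {0}

/-- the core data of sets; `c = m + e + 2`, `N = c + B + 1` -/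
def CS (m e B : ℕ) : Finset ((ℕ × ℕ) × ℕ) :=
  ((P 0 m).map sh ∪ (P (m + 1) e).map sh ∪ (P (m + e + 2) B).map sh ∪ {(m + e + B + 2, m + e + B + 3)}) ×ˢ
    Finset.range 4 ∪
    (Finset.range (m + 1) ×ˢ Finset.Ioc (m + 1) (m + 1 + (e + 1))) ×ˢ {0}

theorem mem_Psh {α E s t : ℕ} : (s, t) ∈ (P α E).map sh ↔ α ≤ s ∧ s + 2 ≤ t ∧ t ≤ α + E + 1 := by
  rw [Finset.mem_map]
  constructor
  · rintro ⟨⟨a, b⟩, hab, h⟩
    rw [mem_P] at hab
    have h1 : a = s := congrArg Prod.fst h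
    have h2 : b + 1 = t := congrArg Prod.snd h
    omega
  · rintro ⟨h1, h2, h3⟩
    refine ⟨(s, t - 1), mem_P.2 (by omega), Prod.ext rfl ?_⟩
    show t - 1 + 1 = t
    omega

theorem mem_CT {m e B s t g : ℕ} : ((s, t), g) ∈ CT m e B ↔
    s < t ∧ t ≤ m + e + B ∧ (m + e ≤ s ∨ t ≤ m + e) ∧ g < 6 ∧ (g = 0 ∨ m ≤ s ∨ t ≤ m) := by
  simp only [CT, Finset.mem_union, Finset.mem_product, mem_P, Finset.mem_range, Finset.mem_Ioc,
    Finset.mem_singleton]
  omega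

theorem mem_CS {m e B s t g : ℕ} : ((s, t), g) ∈ CS m e B ↔
    s < t ∧ t ≤ m + e + B + 3 ∧ (m + e + 2 ≤ s ∨ t ≤ m + e + 2) ∧ g < 4 ∧
      (g = 0 ∨ m + 1 ≤ s ∨ t ≤ m + 1) ∧ (s + 2 ≤ t ∨ (s + 1 = m + e + B + 3 ∧ t = m + e + B + 3)) := by
  simp only [CS, Finset.mem_union, Finset.mem_product, mem_Psh, Finset.mem_range, Finset.mem_Ioc,
    Finset.mem_singleton, Prod.mk.injEq]
  omega

/-- sum over the core data of trees -/
theorem sum_CT (m e B : ℕ) (f : (ℕ × ℕ) × ℕ → ℚ) :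
    ∑ d ∈ CT m e B, f d = ∑ p ∈ P 0 m, ∑ g ∈ Finset.range 6, f (p, g) +
      ∑ p ∈ P m e, ∑ g ∈ Finset.range 6, f (p, g) +
      ∑ p ∈ P (m + e) B, ∑ g ∈ Finset.range 6, f (p, g) +
      ∑ p ∈ Finset.range m ×ˢ Finset.Ioc m (m + e), f (p, 0) := by
  rw [CT, Finset.sum_union, Finset.sum_product, Finset.sum_union, Finset.sum_union,
    Finset.sum_product]
  · simp
  · rw [Finset.disjoint_left]
    rintro ⟨s, t⟩ h1 h2
    rw [mem_P] at h1 h2
    omega
  · rw [Finset.disjoint_left]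
    rintro ⟨s, t⟩ h1 h2
    simp only [Finset.mem_union, mem_P] at h1 h2
    omega
  · rw [Finset.disjoint_left]
    rintro ⟨⟨s, t⟩, g⟩ h1 h2
    simp only [Finset.mem_union, Finset.mem_product, mem_P, Finset.mem_range, Finset.mem_Ioc,
      Finset.mem_singleton] at h1 h2
    omega

/-- sum over the core data of sets -/
theorem sum_CS (m e B : ℕ) (f : (ℕ × ℕ) × ℕ → ℚ) :
    ∑ d ∈ CS m e B, f d = ∑ p ∈ P 0 m, ∑ g ∈ Finset.range 4, f (sh p, g) +
      ∑ p ∈ P (m + 1) e, ∑ g ∈ Finset.range 4, f (sh p, g) +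
      ∑ p ∈ P (m + e + 2) B, ∑ g ∈ Finset.range 4, f (sh p, g) +
      ∑ g ∈ Finset.range 4, f ((m + e + B + 2, m + e + B + 3), g) +
      ∑ p ∈ Finset.range (m + 1) ×ˢ Finset.Ioc (m + 1) (m + 1 + (e + 1)), f (p, 0) := by
  rw [CS, Finset.sum_union, Finset.sum_product, Finset.sum_union, Finset.sum_union,
    Finset.sum_union, Finset.sum_map, Finset.sum_map, Finset.sum_map, Finset.sum_product]
  · simp
  · rw [Finset.disjoint_left]
    rintro ⟨s, t⟩ h1 h2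
    rw [mem_Psh] at h1 h2
    omega
  · rw [Finset.disjoint_left]
    rintro ⟨s, t⟩ h1 h2
    simp only [Finset.mem_union, mem_Psh] at h1 h2
    omega
  · rw [Finset.disjoint_left]
    rintro ⟨s, t⟩ h1 h2
    simp only [Finset.mem_union, mem_Psh, Finset.mem_singleton, Prod.mk.injEq] at h1 h2
    omega
  · rw [Finset.disjoint_left]
    rintro ⟨⟨s, t⟩, g⟩ h1 h2
    simp only [Finset.mem_union, Finset.mem_product, mem_Psh, Finset.mem_range, Finset.mem_Ioc,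
      Finset.mem_singleton, Prod.mk.injEq] at h1 h2
    omega

/-- the core size -/
def sz (N : ℕ) (d : (ℕ × ℕ) × ℕ) : ℕ := d.1.1 + 1 + (N - d.1.2) +
  ((if d.2 = 1 ∨ 3 ≤ d.2 then 1 else 0) + (if 2 ≤ d.2 then 1 else 0))

/-- the number of core data of trees -/
theorem card_CT (m e B : ℕ) : ((CT m e B).card : ℚ) =
    6 * (m * (m + 1) / 2 + e * (e + 1) / 2 + B * (B + 1) / 2) + m * e := by
  have h := sum_CT m e B (fun _ => 1)
  have h1 := sum_P 0 m 1 0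
  have h2 := sum_P m e 1 0
  have h3 := sum_P (m + e) B 1 0
  simp only [zero_mul, add_zero, Finset.sum_const, nsmul_eq_mul, mul_one, Finset.card_range,
    one_mul] at h h1 h2 h3
  rw [h, h1, h2, h3]
  simp only [Finset.card_product, Finset.card_range, Nat.card_Ioc]
  push_cast [Nat.add_sub_cancel_left]
  ring

theorem sz_cast {N s t : ℕ} (h : t ≤ N) (g : ℕ) : (sz N ((s, t), g) : ℚ) =
    ((N : ℚ) + 1 + ((if g = 1 ∨ 3 ≤ g then 1 else 0) + (if 2 ≤ g then 1 else 0))) +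
      (-1) * ((t : ℚ) - s) := by
  unfold sz
  push_cast [Nat.cast_sub h]
  ring

theorem sum6 (a : ℚ) : ∑ g ∈ Finset.range 6,
    (a + ((if g = 1 ∨ 3 ≤ g then 1 else 0) + (if 2 ≤ g then 1 else 0))) = 6 * a + 8 := by
  simp [Finset.sum_range_succ]
  ring

theorem sum4 (a : ℚ) : ∑ g ∈ Finset.range 4,
    (a + ((if g = 1 ∨ 3 ≤ g then 1 else 0) + (if 2 ≤ g then 1 else 0))) = 4 * a + 4 := by
  simp [Finset.sum_range_succ]
  ring

/-- the total core size over the data of trees -/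
theorem size_CT (m e B : ℕ) : (∑ d ∈ CT m e B, (sz (m + e + B) d : ℚ)) =
    6 * (((m : ℚ) + e + B + 1) * (m * (m + 1) / 2 + e * (e + 1) / 2 + B * (B + 1) / 2) -
      (m * (m + 1) * (m + 2) / 6 + e * (e + 1) * (e + 2) / 6 + B * (B + 1) * (B + 2) / 6)) +
    8 * (m * (m + 1) / 2 + e * (e + 1) / 2 + B * (B + 1) / 2) +
    (((m : ℚ) + e + B + 1) * (m * e) - m * e * (m + e + 2) / 2) := by
  rw [sum_CT]
  have key : ∀ (α E : ℕ), α + E ≤ m + e + B →
      ∑ p ∈ P α E, ∑ g ∈ Finset.range 6, (sz (m + e + B) (p, g) : ℚ) =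
      (6 * ((m : ℚ) + e + B + 1) + 8) * (E * (E + 1) / 2) + (-6) * (E * (E + 1) * (E + 2) / 6) := by
    intro α E hE
    rw [← sum_P α E]
    refine Finset.sum_congr rfl ?_
    rintro ⟨s, t⟩ hp
    rw [mem_P] at hp
    rw [Finset.sum_congr rfl (fun g _ => sz_cast (by omega) g)]
    have := sum6 (((m + e + B : ℕ) : ℚ) + 1 + (-1) * ((t : ℚ) - s))
    rw [Finset.sum_congr rfl (fun g _ => show _ = (((m + e + B : ℕ) : ℚ) + 1 + (-1) * ((t : ℚ) - s)) +
      ((if g = 1 ∨ 3 ≤ g then 1 else 0) + (if 2 ≤ g then 1 else 0)) by ring), this]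
    push_cast
    ring
  rw [key 0 m (by omega), key m e (by omega), key (m + e) B (by omega)]
  have h2 : ∑ p ∈ Finset.range m ×ˢ Finset.Ioc m (m + e), (sz (m + e + B) (p, 0) : ℚ) =
      ((m : ℚ) + e + B + 1) * (m * e) + (-1) * (m * e * (m + e + 2) / 2) := by
    rw [← sum_cross m e]
    refine Finset.sum_congr rfl ?_
    rintro ⟨s, t⟩ hp
    simp only [Finset.mem_product, Finset.mem_range, Finset.mem_Ioc] at hp
    rw [sz_cast (by omega)]
    simp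
  rw [h2]
  ring

/-- the number of core data of sets -/
theorem card_CS (m e B : ℕ) : ((CS m e B).card : ℚ) =
    4 * (m * (m + 1) / 2 + e * (e + 1) / 2 + B * (B + 1) / 2 + 1) + (m + 1) * (e + 1) := by
  have h := sum_CS m e B (fun _ => 1)
  have h1 := sum_P 0 m 1 0
  have h2 := sum_P (m + 1) e 1 0
  have h3 := sum_P (m + e + 2) B 1 0
  simp only [zero_mul, add_zero, Finset.sum_const, nsmul_eq_mul, mul_one, Finset.card_range,
    one_mul] at h h1 h2 h3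
  rw [h, h1, h2, h3]
  simp only [Finset.card_product, Finset.card_range, Nat.card_Ioc]
  push_cast [Nat.add_sub_cancel_left]
  ring

/-- the total core size over the data of sets -/
theorem size_CS (m e B : ℕ) : (∑ d ∈ CS m e B, (sz (m + e + B + 3) d : ℚ)) =
    4 * (((m : ℚ) + e + B + 3) * (m * (m + 1) / 2 + e * (e + 1) / 2 + B * (B + 1) / 2 + 1) -
      (m * (m + 1) * (m + 2) / 6 + e * (e + 1) * (e + 2) / 6 + B * (B + 1) * (B + 2) / 6)) +
    4 * (m * (m + 1) / 2 + e * (e + 1) / 2 + B * (B + 1) / 2 + 1) +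
    (((m : ℚ) + e + B + 4) * ((m + 1) * (e + 1)) - (m + 1) * (e + 1) * (m + e + 4) / 2) := by
  rw [sum_CS]
  have key : ∀ (α E : ℕ), α + E + 1 ≤ m + e + B + 3 →
      ∑ p ∈ P α E, ∑ g ∈ Finset.range 4, (sz (m + e + B + 3) (sh p, g) : ℚ) =
      (4 * ((m : ℚ) + e + B + 3) + 4) * (E * (E + 1) / 2) + (-4) * (E * (E + 1) * (E + 2) / 6) := by
    intro α E hE
    rw [← sum_P α E]
    refine Finset.sum_congr rfl ?_
    rintro ⟨s, t⟩ hp
    rw [mem_P] at hp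
    have hsh : sh (s, t) = (s, t + 1) := rfl
    rw [hsh]
    rw [Finset.sum_congr rfl (fun g _ => sz_cast (by omega) g)]
    have := sum4 (((m + e + B + 3 : ℕ) : ℚ) + 1 + (-1) * (((t + 1 : ℕ) : ℚ) - s))
    rw [Finset.sum_congr rfl (fun g _ => show _ =
      (((m + e + B + 3 : ℕ) : ℚ) + 1 + (-1) * (((t + 1 : ℕ) : ℚ) - s)) +
      ((if g = 1 ∨ 3 ≤ g then 1 else 0) + (if 2 ≤ g then 1 else 0)) by ring), this]
    push_cast
    ring
  rw [key 0 m (by omega), key (m + 1) e (by omega), key (m + e + 2) B (by omega)]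
  have h1 : ∑ g ∈ Finset.range 4, (sz (m + e + B + 3) ((m + e + B + 2, m + e + B + 3), g) : ℚ) =
      4 * ((m : ℚ) + e + B + 3) + 4 := by
    rw [Finset.sum_congr rfl (fun g _ => sz_cast le_rfl g)]
    have := sum4 (((m + e + B + 3 : ℕ) : ℚ))
    rw [Finset.sum_congr rfl (fun g _ => show _ =
      (((m + e + B + 3 : ℕ) : ℚ)) +
      ((if g = 1 ∨ 3 ≤ g then 1 else 0) + (if 2 ≤ g then 1 else 0)) by push_cast; ring), this]
    push_cast
    ring
  have h2 : ∑ p ∈ Finset.range (m + 1) ×ˢ Finset.Ioc (m + 1) (m + 1 + (e + 1)),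
      (sz (m + e + B + 3) (p, 0) : ℚ) =
      ((m : ℚ) + e + B + 4) * (((m + 1 : ℕ) : ℚ) * ((e + 1 : ℕ) : ℚ)) +
        (-1) * (((m + 1 : ℕ) : ℚ) * ((e + 1 : ℕ) : ℚ) *
          (((m + 1 : ℕ) : ℚ) + ((e + 1 : ℕ) : ℚ) + 2) / 2) := by
    rw [← sum_cross (m + 1) (e + 1)]
    refine Finset.sum_congr rfl ?_
    rintro ⟨s, t⟩ hp
    simp only [Finset.mem_product, Finset.mem_range, Finset.mem_Ioc] at hp
    rw [sz_cast (by omega)]
    simp
    ring
  rw [h1, h2]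
  push_cast
  ring

end Pool.Agent.Q83.Mean
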