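import Pool.Agent.Q83.Mean.Cls

namespace Pool.Agent.Q83.Mean

open SimpleGraph

variable {N m c r : ℕ} {VT : ℕ → Prop} {ET : ℕ → ℕ → Prop}

/-- the classification of the connected sets containing both hubs -/
theorem CF.cls (h : CF N m c r VT (fun a b => (R N m c r a b ∨ R N m c r b a) ∧ VT a ∧ VT b))
    (hm : 0 < m) (hmc : m < c) (hcN : c < N) :
    ∃ s t g L, Ok N m c r s t g L ∧ g < 4 ∧ (s + 2 ≤ t ∨ (s + 1 = N ∧ t = N)) ∧
      ∀ a, VT a ↔ InV N r s t g L a := by
  classical
  set x := N + 2 * r with hx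
  -- the gap
  obtain ⟨s, t, hst, htN, hcan, hV, hcc, hmm⟩ : ∃ s t, s < t ∧ t ≤ N ∧
      (s + 2 ≤ t ∨ (s + 1 = N ∧ t = N)) ∧ (∀ a, a < N → (VT a ↔ a ≤ s ∨ t ≤ a)) ∧
      (c ≤ s ∨ t ≤ c) ∧ ((VT x ∨ VT (x + 1)) → m ≤ s ∨ t ≤ m) := by
    by_cases hall : ∀ a, a < N → VT a
    · refine ⟨N - 1, N, by omega, le_rfl, Or.inr (by omega), fun a ha => ?_, by omega, by omega⟩
      exact ⟨fun _ => Or.inl (by omega), fun _ => hall a ha⟩
    · push Not at hall
      obtain ⟨k, hk1, hk2⟩ : ∃ k, (k < N ∧ ¬ VT k) ∧ ∀ a, a < k → VT a := by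
        refine ⟨Nat.find hall, Nat.find_spec hall, fun a ha => ?_⟩
        by_contra ha'
        exact Nat.find_min hall ha ⟨by have := (Nat.find_spec hall).1; omega, ha'⟩
      obtain ⟨j, hj1, hj2⟩ : ∃ j, (j < N ∧ ¬ VT j) ∧ ∀ a, j < a → a < N → VT a := by
        have hne : ((Finset.range N).filter (fun k => ¬ VT k)).Nonempty := ⟨k, by simpa using hk1⟩
        obtain ⟨j, hj, hmax⟩ := Finset.exists_max_image _ id hne
        refine ⟨j, by simpa using hj, fun a h1 h2 => ?_⟩
        by_contra ha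
        have := hmax a (by simpa using ⟨h2, ha⟩)
        simp only [id] at this
        omega
      have hk0 : 0 < k := by
        rcases Nat.eq_zero_or_pos k with h0 | h0
        · rw [h0] at hk1; exact absurd h.root hk1.2
        · exact h0
      have hkj : k ≤ j := by
        by_contra hlt
        exact hj1.2 (hk2 j (by omega))
      have hcl := h.closed (fun a => (a < N → a < k ∨ j < a) ∧
        (N + r ≤ a → a < N + 2 * r → c < k ∨ j < c) ∧
        (N + 2 * r ≤ a → m < k ∨ j < m))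
        (by refine ⟨fun _ => Or.inl (by omega), ?_, ?_⟩ <;> omega)
        (by
          intro a b ⟨h1, h2, h3⟩ ⟨hR, hva, hvb⟩
          have hbk : b ≠ k := fun h => hk1.2 (h ▸ hvb)
          have hbj : b ≠ j := fun h => hj1.2 (h ▸ hvb)
          rcases hR with ⟨hlt, hR | hR | hR | hR | hR | hR⟩ | ⟨hlt, hR | hR | hR | hR | hR | hR⟩
          · exact ⟨by omega, by omega, by omega⟩
          · exact ⟨by omega, by omega, by omega⟩
          · exact ⟨by omega, by omega, by omega⟩
          · refine ⟨by omega, fun _ _ => ?_, by omega⟩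
            have := h1 (by omega)
            omega
          · refine ⟨by omega, by omega, fun _ => ?_⟩
            have := h1 (by omega)
            omega
          · refine ⟨by omega, by omega, fun _ => ?_⟩
            have := h3 (by omega)
            omega
          · exact ⟨by omega, by omega, by omega⟩
          · exact ⟨by omega, by omega, by omega⟩
          · exact ⟨by omega, by omega, by omega⟩
          · refine ⟨fun _ => ?_, by omega, by omega⟩
            have := h2 (by omega) (by omega)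
            omega
          · refine ⟨fun _ => ?_, by omega, by omega⟩
            have := h3 (by omega)
            omega
          · refine ⟨by omega, by omega, fun _ => ?_⟩
            have := h3 (by omega)
            omega)
      refine ⟨k - 1, j + 1, by omega, by omega, Or.inl (by omega), fun a ha => ?_, ?_, ?_⟩
      · constructor
        · intro hva
          have := (hcl a hva).1 ha
          omega
        · rintro (h1 | h1)
          · exact hk2 a (by omega)
          · exact hj2 a (by omega) ha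
      · have := (hcl c h.hub).1 hcN
        omega
      · rintro (h1 | h1)
        · have := (hcl _ h1).2.2 (by omega)
          omega
        · have := (hcl _ h1).2.2 (by omega)
          omega
  obtain ⟨g, hg4, hgx, hgy⟩ : ∃ g, g < 4 ∧ (VT x ↔ (g = 1 ∨ 3 ≤ g)) ∧ (VT (x + 1) ↔ 2 ≤ g) := by
    by_cases b1 : VT x <;> by_cases b2 : VT (x + 1)
    · exact ⟨3, by simp [b1, b2]⟩
    · exact ⟨1, by simp [b1, b2]⟩
    · exact ⟨2, by simp [b1, b2]⟩
    · exact ⟨0, by simp [b1, b2]⟩
  refine ⟨s, t, g, (Finset.Ico N (N + 2 * r)).filter VT, ⟨hst, htN, by omega, ?_, hcc, ?_⟩, hg4,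
    hcan, ?_⟩
  · intro a ha
    simp only [Finset.mem_filter, Finset.mem_Ico] at ha
    exact ha.1
  · by_cases h0 : g = 0
    · exact Or.inl h0
    · right
      by_cases h1 : VT x
      · exact hmm (Or.inl h1)
      · exact hmm (Or.inr (hgy.2 (by
          by_contra h2
          exact h1 (hgx.2 (by omega)))))
  · intro a
    unfold InV
    simp only [Finset.mem_filter, Finset.mem_Ico]
    rw [← hx]
    constructor
    · intro ha
      have h2 := h.lt a ha
      by_cases h3 : a < N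
      · exact Or.inl ⟨h3, (hV a h3).1 ha⟩
      · by_cases h4 : a < x
        · right; left; exact ⟨⟨by omega, h4⟩, ha⟩
        · have : a = x ∨ a = x + 1 := by omega
          rcases this with h5 | h5
          · right; right; left
            exact ⟨h5, hgx.1 (h5 ▸ ha)⟩
          · right; right; right
            exact ⟨h5, hgy.1 (h5 ▸ ha)⟩
    · rintro (⟨h1, h2⟩ | ⟨_, h1⟩ | ⟨h1, h2⟩ | ⟨h1, h2⟩)
      · exact (hV a h1).2 h2
      · exact h1
      · rw [h1]; exact hgx.2 h2
      · rw [h1]; exact hgy.2 h2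

/-- the standard subtree -/
def Phi (N m c r s t g : ℕ) (L : Finset ℕ) : (G N m c r).Subgraph where
  verts := {a | InV N r s t g L a}
  Adj a b := (TR N m c r s t g L a b ∨ TR N m c r s t g L b a) ∧ (R N m c r a b ∨ R N m c r b a) ∧
    InV N r s t g L a ∧ InV N r s t g L b
  adj_sub := fun h => h.2.1
  edge_vert := fun h => h.2.2.1
  symm := ⟨fun _ _ h => ⟨h.1.symm, h.2.1.symm, h.2.2.2, h.2.2.1⟩⟩

theorem TR.spec {s t g : ℕ} {L : Finset ℕ} (hO : Ok N m c r s t g L) (hm : 0 < m) (hmc : m < c)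
    (hcN : c < N) {a b : ℕ} (h : TR N m c r s t g L a b) :
    R N m c r a b ∧ InV N r s t g L a ∧ InV N r s t g L b := by
  obtain ⟨hst, htN, hg6, hL, hc, hm'⟩ := hO
  obtain ⟨hlt, h⟩ := h
  unfold R InV
  rcases h with ⟨h1, h2, h3⟩ | ⟨h1, h2, h3⟩ | ⟨h1, h2, h3⟩ | ⟨h1, h2, h3⟩ | ⟨h1, h2, h3⟩ |
    ⟨h1, h2, h3⟩ | ⟨h1, h2, h3⟩
  · refine ⟨⟨hlt, ?_⟩, ?_, ?_⟩
    · omega
    · left; omega
    · left; omega
  · refine ⟨⟨hlt, ?_⟩, ?_, ?_⟩
    · omega
    · left; omega
    · left; omega
  · have := hL b h2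
    refine ⟨⟨hlt, ?_⟩, ?_, ?_⟩
    · omega
    · left; omega
    · right; left; exact h2
  · have := hL b h2
    refine ⟨⟨hlt, ?_⟩, ?_, ?_⟩
    · omega
    · left; omega
    · right; left; exact h2
  · refine ⟨⟨hlt, ?_⟩, ?_, ?_⟩
    · omega
    · left; omega
    · right; right; left; omega
  · refine ⟨⟨hlt, ?_⟩, ?_, ?_⟩
    · omega
    · left; omega
    · right; right; right; omega
  · refine ⟨⟨hlt, ?_⟩, ?_, ?_⟩
    · omega
    · right; right; left; omega
    · right; right; right; omega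

/-- the height -/
def ht (N r s g a : ℕ) : ℕ :=
  if a < N then (if a ≤ s then a else N - a) else if a = N + 2 * r then (if g = 5 then N + 2 else N + 1)
  else if a = N + 2 * r + 1 then (if g = 4 then N + 2 else N + 1) else N + 1

/-- the parent -/
def par (N m c r s g a : ℕ) : ℕ :=
  if a < N then (if a ≤ s then a - 1 else if a + 1 = N then 0 else a + 1) else if a < N + r then 0
  else if a < N + 2 * r then c else if a = N + 2 * r then (if g = 5 then N + 2 * r + 1 else m)
  else (if g = 4 then N + 2 * r else m)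

theorem ht_cases (N r s g a : ℕ) :
    (a < N ∧ a ≤ s ∧ ht N r s g a = a) ∨ (a < N ∧ s < a ∧ ht N r s g a + a = N) ∨
    (N ≤ a ∧ ((a = N + 2 * r ∧ ((g = 5 ∧ ht N r s g a = N + 2) ∨ (g ≠ 5 ∧ ht N r s g a = N + 1))) ∨
    (a = N + 2 * r + 1 ∧ ((g = 4 ∧ ht N r s g a = N + 2) ∨ (g ≠ 4 ∧ ht N r s g a = N + 1))) ∨
    (a ≠ N + 2 * r ∧ a ≠ N + 2 * r + 1 ∧ ht N r s g a = N + 1))) := by
  unfold ht
  split_ifs <;> omega

theorem par_cyc1 {s : ℕ} (g : ℕ) {a : ℕ} (h1 : a < N) (h2 : a ≤ s) :
    par N m c r s g a = a - 1 := by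
  unfold par; rw [if_pos h1, if_pos h2]

theorem par_cyc2 {s : ℕ} (g : ℕ) {a : ℕ} (h1 : a < N) (h2 : s < a) (h3 : a + 1 = N) :
    par N m c r s g a = 0 := by
  unfold par; rw [if_pos h1, if_neg (by omega), if_pos h3]

theorem par_cyc3 {s : ℕ} (g : ℕ) {a : ℕ} (h1 : a < N) (h2 : s < a) (h3 : a + 1 ≠ N) :
    par N m c r s g a = a + 1 := by
  unfold par; rw [if_pos h1, if_neg (by omega), if_neg h3]

theorem par_leaf0 (s g : ℕ) {a : ℕ} (h1 : N ≤ a) (h2 : a < N + r) :
    par N m c r s g a = 0 := by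
  unfold par; rw [if_neg (by omega), if_pos h2]

theorem par_leafc (s g : ℕ) {a : ℕ} (h1 : N + r ≤ a) (h2 : a < N + 2 * r) :
    par N m c r s g a = c := by
  unfold par; rw [if_neg (by omega), if_neg (by omega), if_pos h2]

theorem par_x (s g : ℕ) :
    par N m c r s g (N + 2 * r) = if g = 5 then N + 2 * r + 1 else m := by
  unfold par; rw [if_neg (by omega), if_neg (by omega), if_neg (by omega), if_pos rfl]

theorem par_y (s g : ℕ) :
    par N m c r s g (N + 2 * r + 1) = if g = 4 then N + 2 * r else m := by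
  unfold par
  rw [if_neg (by omega), if_neg (by omega), if_neg (by omega), if_neg (by omega)]

theorem par_spec {s t g : ℕ} {L : Finset ℕ} (hO : Ok N m c r s t g L) (hm : 0 < m) (hmc : m < c)
    (hcN : c < N) {a b : ℕ} (h : TR N m c r s t g L a b ∨ TR N m c r s t g L b a)
    (hh : ht N r s g b ≤ ht N r s g a) : b = par N m c r s g a := by
  obtain ⟨hst, htN, hg6, hL, hc, hm'⟩ := hO
  have ca := ht_cases N r s g a
  have cb := ht_cases N r s g b
  rcases h with ⟨hlt, h⟩ | ⟨hlt, h⟩
  all_goals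
    rcases h with ⟨h1, h2, h3⟩ | ⟨h1, h2, h3⟩ | ⟨h1, h2, h3⟩ | ⟨h1, h2, h3⟩ | ⟨h1, h2, h3⟩ |
      ⟨h1, h2, h3⟩ | ⟨h1, h2, h3⟩
  · -- b = a + 1
    rw [par_cyc3 g (by omega) (by omega) (by omega)]; omega
  · -- a = 0
    omega
  · have := hL b h2
    omega
  · have := hL b h2
    omega
  · omega
  · omega
  · -- a = x, b = y: parent of x is y
    subst h1
    rw [par_x, if_pos (by omega)]; exact h2
  · -- a = b + 1
    rw [par_cyc1 g (by omega) (by omega)]; omega
  · rw [par_cyc2 g (by omega) (by omega) (by omega)]; omega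
  · have := hL a h2
    rw [par_leaf0 s g (by omega) (by omega)]; omega
  · have := hL a h2
    rw [par_leafc s g (by omega) (by omega)]; omega
  · subst h2
    rw [par_x, if_neg (by omega)]; exact h1
  · subst h2
    rw [par_y, if_neg (by omega)]; exact h1
  · subst h2
    rw [par_y, if_pos (by omega)]; exact h1

theorem low_spec {s t g : ℕ} {L : Finset ℕ} (hO : Ok N m c r s t g L) (hm : 0 < m) (hmc : m < c)
    (hcN : c < N) {a : ℕ} (ha : InV N r s t g L a) (h0 : a ≠ 0) :
    ∃ b, (TR N m c r s t g L a b ∨ TR N m c r s t g L b a) ∧ ht N r s g b < ht N r s g a ∧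
      b < N + 2 * r + 2 := by
  obtain ⟨hst, htN, hg6, hL, hc, hm'⟩ := hO
  unfold InV at ha
  rcases ha with ⟨h1, h2⟩ | h1 | ⟨h1, h2⟩ | ⟨h1, h2⟩
  · by_cases h3 : a ≤ s
    · refine ⟨a - 1, Or.inr ⟨by omega, Or.inl (by omega)⟩, ?_, by omega⟩
      unfold ht
      split_ifs <;> omega
    · by_cases h4 : a + 1 < N
      · refine ⟨a + 1, Or.inl ⟨by omega, Or.inl (by omega)⟩, ?_, by omega⟩
        unfold ht
        split_ifs <;> omega
      · refine ⟨0, Or.inr ⟨by omega, Or.inr (Or.inl (by omega))⟩, ?_, by omega⟩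
        unfold ht
        split_ifs <;> omega
  · have h5 := hL a h1
    by_cases h3 : a < N + r
    · refine ⟨0, Or.inr ⟨by omega, Or.inr (Or.inr (Or.inl ⟨rfl, h1, h3⟩))⟩, ?_, by omega⟩
      unfold ht
      split_ifs <;> omega
    · refine ⟨c, Or.inr ⟨by omega, Or.inr (Or.inr (Or.inr (Or.inl ⟨rfl, h1, by omega⟩)))⟩, ?_,
        by omega⟩
      unfold ht
      split_ifs <;> omega
  · by_cases h3 : g = 5
    · refine ⟨N + 2 * r + 1, Or.inl ⟨by omega, ?_⟩, ?_, by omega⟩
      · right; right; right; right; right; right; omega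
      · unfold ht
        split_ifs <;> omega
    · refine ⟨m, Or.inr ⟨by omega, ?_⟩, ?_, by omega⟩
      · right; right; right; right; left; omega
      · unfold ht
        split_ifs <;> omega
  · by_cases h3 : g = 4
    · refine ⟨N + 2 * r, Or.inr ⟨by omega, ?_⟩, ?_, by omega⟩
      · right; right; right; right; right; right; omega
      · unfold ht
        split_ifs <;> omega
    · refine ⟨m, Or.inr ⟨by omega, ?_⟩, ?_, by omega⟩
      · right; right; right; right; right; left; omega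
      · unfold ht
        split_ifs <;> omega

theorem InV.zero {s t g : ℕ} {L : Finset ℕ} (hcN : c < N) : InV N r s t g L 0 :=
  Or.inl ⟨by omega, Or.inl (Nat.zero_le _)⟩

/-- the standard subtrees are trees -/
theorem Phi_tree {s t g : ℕ} {L : Finset ℕ} (hO : Ok N m c r s t g L) (hm : 0 < m) (hmc : m < c)
    (hcN : c < N) : (Phi N m c r s t g L).coe.IsTree := by
  refine tree_of_height _ ⟨⟨0, by omega⟩, InV.zero hcN⟩ (fun a => ht N r s g a.1.1) ?_ ?_
  · rintro ⟨⟨a, ha⟩, haV⟩ ha0
    have h0 : a ≠ 0 := by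
      rintro rfl
      exact ha0 rfl
    obtain ⟨b, hb, hlt, hbn⟩ := low_spec hO hm hmc hcN (a := a) haV h0
    have hsp : (R N m c r a b ∨ R N m c r b a) ∧ InV N r s t g L b := by
      rcases hb with hb | hb
      · have := TR.spec hO hm hmc hcN hb
        exact ⟨Or.inl this.1, this.2.2⟩
      · have := TR.spec hO hm hmc hcN hb
        exact ⟨Or.inr this.1, this.2.1⟩
    exact ⟨⟨⟨b, hbn⟩, hsp.2⟩, ⟨hb, hsp.1, haV, hsp.2⟩, hlt⟩
  · rintro ⟨⟨a, ha⟩, haV⟩ ⟨⟨b, hb⟩, hbV⟩ ⟨⟨b', hb'⟩, hbV'⟩ h1 h2 h3 h4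
    have e1 := par_spec hO hm hmc hcN h1.1 h3
    have e2 := par_spec hO hm hmc hcN h2.1 h4
    have : b = b' := e1.trans e2.symm
    subst this
    rfl

/-- the standard sets are connected -/
theorem Phi_conn {s t g : ℕ} {L : Finset ℕ} (hO : Ok N m c r s t g L) (hm : 0 < m) (hmc : m < c)
    (hcN : c < N) : ((G N m c r).induce {a : Fin (N + 2 * r + 2) | InV N r s t g L a}).Connected := by
  refine connected_of_height _ ⟨⟨0, by omega⟩, InV.zero hcN⟩ (fun a => ht N r s g a.1.1) ?_
  rintro ⟨⟨a, ha⟩, haV⟩ ha0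
  have h0 : a ≠ 0 := by
    rintro rfl
    exact ha0 rfl
  obtain ⟨b, hb, hlt, hbn⟩ := low_spec hO hm hmc hcN (a := a) haV h0
  have hsp : (R N m c r a b ∨ R N m c r b a) ∧ InV N r s t g L b := by
    rcases hb with hb | hb
    · have := TR.spec hO hm hmc hcN hb
      exact ⟨Or.inl this.1, this.2.2⟩
    · have := TR.spec hO hm hmc hcN hb
      exact ⟨Or.inr this.1, this.2.1⟩
  exact ⟨⟨⟨b, hbn⟩, hsp.2⟩, hsp.1, hlt⟩

end Pool.Agent.Q83.Mean
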